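import Pool.Agent.Lib.MP_ab8df0_nt.Phi

/-! The intermediate statements to which the equations are reduced. -/

namespace Pool.Agent.Lib.MP_ab8df0_nt.C

abbrev Q3 := ℚ × ℚ × ℚ

/-- multiplication of coordinate triples with respect to `1, t, t ^ 2` where `t ^ 3 = d` -/
def m3 (d : ℚ) (a b : Q3) : Q3 :=
  (a.1 * b.1 + d * (a.2.1 * b.2.2 + a.2.2 * b.2.1),
   a.1 * b.2.1 + a.2.1 * b.1 + d * (a.2.2 * b.2.2),
   a.1 * b.2.2 + a.2.1 * b.2.1 + a.2.2 * b.1)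

def p4 (d : ℚ) (a : Q3) : Q3 := m3 d (m3 d a a) (m3 d a a)

def e3 {F : Type*} [Field F] (t : F) (a : Q3) : F := (a.1 : F) + (a.2.1 : F) * t + (a.2.2 : F) * t ^ 2

/-- `-(k z + y t)` is `c` times a fourth power -/
def Fac (d k : ℤ) (c : Q3) (y z : ℤ) : Prop :=
  ∃ a : Q3, m3 d c (p4 d a) = (-((k : ℚ) * z), -(y : ℚ), 0)

/-- solutions of `k ^ 2 x ^ 4 + d y ^ 3 + (k z) ^ 3 = 0` in the class of `c` satisfy `R` -/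
def BB3 (d k : ℤ) (c : Q3) (R : ℤ → ℤ → Prop) : Prop :=
  ∀ x y z : ℤ, x ≠ 0 → IsCoprime y z → k ^ 2 * x ^ 4 + d * y ^ 3 + (k * z) ^ 3 = 0 →
    Fac d k c y z → R y z

def eps2 : Q3 := (-1, 1, 0)
def eps3 : Q3 := (-2, 0, 1)
def eps12 : Q3 := (1, 3, -3 / 2)
def c12 : Q3 := (-2, 1, 0)

def BB10 : Prop := BB3 2 1 (1, 0, 0) fun y _ => y = 0
def BB11 : Prop := BB3 2 1 eps2 fun y z =>
  y + z = 0 ∨ y - z = 0 ∨ 237 * y + 203 * z = 0 ∨ 37 * y + 29 * z = 0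
def BB12 : Prop := BB3 2 1 (m3 2 eps2 eps2) fun _ _ => False
def BB13 : Prop := BB3 2 1 (m3 2 eps2 (m3 2 eps2 eps2)) fun _ _ => False

def BB20 : Prop := BB3 3 1 (1, 0, 0) fun y z => y = 0 ∨ z = 0
def BB21 : Prop := BB3 3 1 eps3 fun y z => 4199 * y + 6202 * z = 0 ∨ 3 * y + 2 * z = 0
def BB22 : Prop := BB3 3 1 (m3 3 eps3 eps3) fun _ _ => False
def BB23 : Prop := BB3 3 1 (m3 3 eps3 (m3 3 eps3 eps3)) fun _ _ => False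

def BB30 : Prop := BB3 12 2 c12 fun y z => y + z = 0
def BB31 : Prop := BB3 12 2 (m3 12 c12 eps12) fun _ z => z = 0
def BB32 : Prop := BB3 12 2 (m3 12 c12 (m3 12 eps12 eps12)) fun _ _ => False
def BB33 : Prop := BB3 12 2 (m3 12 c12 (m3 12 eps12 (m3 12 eps12 eps12))) fun _ _ => False

/-- rational and irrational part of `(u + v * sqrt d) ^ 5` -/
def re5 (d u v : ℤ) : ℤ := u ^ 5 + 10 * d * u ^ 3 * v ^ 2 + 5 * d ^ 2 * u * v ^ 4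
def im5 (d u v : ℤ) : ℤ := 5 * u ^ 4 * v + 10 * d * u ^ 2 * v ^ 3 + d ^ 2 * v ^ 5

def BB70 : Prop := ∀ u v w : ℤ, IsCoprime u v → Odd u →
  w ^ 2 = u ^ 4 + 20 * u ^ 2 * v ^ 2 + 20 * v ^ 4 → v = 0
def BB71 : Prop := ∀ u v y : ℤ, IsCoprime u v → Odd u → y ^ 2 = re5 2 u v + 2 * im5 2 u v → v = 0
def BB72 : Prop := ∀ u v y : ℤ, IsCoprime u v → Odd u → y ^ 2 = 3 * re5 2 u v + 4 * im5 2 u v → False

def BB81 : Prop := ∀ u v y : ℤ, IsCoprime u v → Odd (u + v) → ¬ 3 ∣ y →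
  y ^ 2 = 2 * re5 3 u v + 3 * im5 3 u v → False
def BB82 : Prop := ∀ u v y : ℤ, IsCoprime u v → Odd (u + v) → ¬ 3 ∣ y →
  y ^ 2 = 7 * re5 3 u v + 12 * im5 3 u v → False

/-- `15 + 6 * sqrt 5` -/
def c8 : O := ⟨9, 12⟩

def BB8a : Prop := ∀ (s v : ℤ) (p m : O), IsCoprime s v → Odd s → 4 ∣ v →
  p ^ 2 = (s : O) ^ 4 + c8 * (v : O) ^ 2 → (s : O) ^ 2 + p = 2 * m ^ 2 → v = 0
def BB8b : Prop := ∀ (s v : ℤ) (p m : O), IsCoprime s (30 * v) → v % 4 = 2 →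
  p ^ 2 = (s : O) ^ 4 + c8 * (v : O) ^ 2 → (s : O) ^ 2 + p = 2 * s5 * m ^ 2 →
  v = 2 * s ^ 2 ∨ v = -2 * s ^ 2

end Pool.Agent.Lib.MP_ab8df0_nt.C
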