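import Pool.Agent.Lib.MP_ab8df0_nt.C.BB

/-! The intermediate statements for the equation with a fifth power and two cubes. -/

namespace Pool.Agent.Lib.MP_ab8df0_nt.C

def p5 (a : Q3) : Q3 := m3 2 a (p4 2 a)

/-- solutions of `x ^ 5 + 2 y ^ 3 + z ^ 3 = 0` with `-(z + y t)` equal to `c` times a fifth power
satisfy `R` -/
def BB6 (c : Q3) (R : ℤ → ℤ → Prop) : Prop :=
  ∀ x y z : ℤ, Odd z → x ^ 5 + 2 * y ^ 3 + z ^ 3 = 0 →
    (∃ a : Q3, m3 2 c (p5 a) = (-(z : ℚ), -(y : ℚ), 0)) → R y z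

def BB60 : Prop := BB6 (1, 0, 0) fun y _ => y = 0
def BB61 : Prop := BB6 eps2 fun y z => y + z = 0 ∨ 5 * y + 4 * z = 0
def BB62 : Prop := BB6 (m3 2 eps2 eps2) fun _ _ => False
def BB63 : Prop := BB6 (m3 2 eps2 (m3 2 eps2 eps2)) fun y z => y - z = 0
def BB64 : Prop := BB6 (p4 2 eps2) fun _ _ => False

end Pool.Agent.Lib.MP_ab8df0_nt.C
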