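import Pool.Agent.Lib.MP_ab8df0_nt.C.BB
import Pool.Agent.Lib.MP_ab8df0_nt.B.Defs
import Pool.Agent.Lib.MP_ab8df0_nt.B.Val

/-! Reduction of the equations of signature (4,3,3). -/

namespace Pool.Agent.Lib.MP_ab8df0_nt.C

open NumberField IsDedekindDomain WithZero Pool.Agent.Lib.MP_ab8df0_nt.B

/-- elements with even valuation outside `S` lie in the span of `gs` -/
def SU (K : Type) [Field K] [NumberField K] (S : ℕ) (gs : List K) : Prop :=
  ∀ x : K, x ≠ 0 → (∀ v : HeightOneSpectrum (𝓞 K), (S : 𝓞 K) ∉ v.asIdeal →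
    ∃ k : ℤ, v.valuation K x = exp (2 * k)) → Span gs x

/-- what is used on a pure cubic field -/
structure Cubic (K : Type) [Field K] [NumberField K] (d : ℤ) (t : K) : Prop where
  ht : t ^ 3 = (d : K)
  span : ∀ x : K, ∃ a : Q3, x = e3 t a
  indep : ∀ a : Q3, e3 t a = 0 → a = 0

/-- norm and trace of a coordinate triple -/
def n3 (d : ℚ) (a : Q3) : ℚ :=
  a.1 ^ 3 + d * a.2.1 ^ 3 + d ^ 2 * a.2.2 ^ 3 - 3 * d * a.1 * a.2.1 * a.2.2

namespace R13

/-! ### coordinates -/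

lemma n3_m3 (d : ℚ) (a b : Q3) : n3 d (m3 d a b) = n3 d a * n3 d b := by
  simp only [n3, m3]; ring

lemma n3_p4 (d : ℚ) (a : Q3) : n3 d (p4 d a) = n3 d a ^ 4 := by
  simp only [p4, n3_m3]; ring

lemma e3_m3 {F : Type*} [Field F] [CharZero F] {d : ℤ} {t : F} (ht : t ^ 3 = (d : F)) (a b : Q3) :
    e3 t (m3 d a b) = e3 t a * e3 t b := by
  simp only [e3, m3]
  push_cast
  rw [← ht]; ring

lemma e3_p4 {F : Type*} [Field F] [CharZero F] {d : ℤ} {t : F} (ht : t ^ 3 = (d : F)) (a : Q3) :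
    e3 t (p4 d a) = e3 t a ^ 4 := by
  simp only [p4, e3_m3 ht]; ring

section
variable {K : Type} [Field K] [NumberField K] {t : K} {d : ℤ}

lemma e3_inj (hK : Cubic K d t) {a b : Q3} (h : e3 t a = e3 t b) : a = b := by
  have := hK.indep (a - b) (by
    simp only [e3, Prod.fst_sub, Prod.snd_sub] at h ⊢
    push_cast
    linear_combination h)
  exact sub_eq_zero.1 this

/-- the norm -/
noncomputable def nm (hK : Cubic K d t) (x : K) : ℚ := n3 d (hK.span x).choose

lemma nm_e3 (hK : Cubic K d t) (a : Q3) : nm hK (e3 t a) = n3 d a := by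
  unfold nm
  rw [← e3_inj hK (hK.span (e3 t a)).choose_spec]

lemma nm_of (hK : Cubic K d t) {x : K} (a : Q3) (h : x = e3 t a) : nm hK x = n3 d a := by
  rw [h, nm_e3]

lemma nm_mul (hK : Cubic K d t) (x y : K) : nm hK (x * y) = nm hK x * nm hK y := by
  obtain ⟨a, rfl⟩ := hK.span x
  obtain ⟨b, rfl⟩ := hK.span y
  rw [← e3_m3 hK.ht, nm_e3, nm_e3, nm_e3, n3_m3]

lemma nm_one (hK : Cubic K d t) : nm hK 1 = 1 := by
  rw [nm_of hK (1, 0, 0) (by simp [e3])]; simp [n3]

lemma nm_neg_one (hK : Cubic K d t) : nm hK (-1) = -1 := by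
  rw [nm_of hK (-1, 0, 0) (by simp [e3])]; norm_num [n3]

lemma nm_sq (hK : Cubic K d t) (x : K) : nm hK (x ^ 2) = nm hK x ^ 2 := by
  rw [sq, nm_mul, sq]

lemma nm_ne (hK : Cubic K d t) {x : K} (hx : x ≠ 0) : nm hK x ≠ 0 := by
  intro h
  have := nm_mul hK x x⁻¹
  rw [mul_inv_cancel₀ hx, nm_one, h, zero_mul] at this
  exact one_ne_zero this

lemma fac_of (hK : Cubic K d t) {k y z : ℤ} {c : Q3} {u : K}
    (h : -((k : K) * z + y * t) = e3 t c * u ^ 4) : Fac d k c y z := by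
  obtain ⟨a, rfl⟩ := hK.span u
  refine ⟨a, e3_inj hK ?_⟩
  rw [e3_m3 hK.ht, e3_p4 hK.ht, ← h]
  simp only [e3]
  push_cast
  ring

end

lemma sel_cons {L : Type*} [Field L] (g : L) (gs : List L) (sel : List Bool) :
    ∃ (s : List Bool) (a : L), (a = 1 ∨ a = g) ∧ prodSel (g :: gs) sel = a * prodSel gs s := by
  cases sel with
  | nil => exact ⟨[], 1, Or.inl rfl, by cases gs <;> simp [prodSel]⟩
  | cons b bs =>
    cases b
    · exact ⟨bs, 1, Or.inl rfl, by simp [prodSel]⟩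
    · exact ⟨bs, g, Or.inr rfl, by simp [prodSel]⟩

lemma sel_nil {L : Type*} [Field L] (sel : List Bool) : prodSel ([] : List L) sel = 1 := by
  cases sel <;> rfl

lemma nsq {n m : ℕ} (h1 : m * m < n) (h2 : n < (m + 1) * (m + 1)) {a r : ℚ} (ha : a ≠ 0)
    (h : (n : ℚ) * a ^ 2 = r ^ 2) : False := by
  have h3 : IsSquare (n : ℚ) := ⟨r / a, by field_simp; linear_combination h⟩
  obtain ⟨k, hk⟩ := Rat.isSquare_natCast_iff.1 h3
  exact Nat.not_exists_sq h1 h2 ⟨k, hk.symm⟩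

/-! ### valuations -/

section
variable {L : Type*} [Field L] {v : Valuation L Gam}

lemma not_P_one : ¬ P v 1 (1 : L) := by
  have h : v (1 : L) = exp (-0) := by simp
  simpa using not_P_of_exact h

lemma cop {a b : ℤ} (h : IsCoprime a b) (ha : P v 1 (a : L)) (hb : P v 1 (b : L)) : False := by
  obtain ⟨p, q, hpq⟩ := h
  refine not_P_one (v := v) ((((P.int v p).mul0' ha).add ((P.int v q).mul0' hb)).congr ?_)
  exact_mod_cast congrArg (Int.cast : ℤ → L) hpq.symm

lemma cancel {a b : L} (ha : P v 0 a) (hna : ¬ P v 1 a) (h : P v 1 (b * a)) : P v 1 b := by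
  have := h.of_mul_exact (exact_of_not ha (by simpa using hna))
  simpa using this

lemma of_pow {a : L} {n : ℕ} {r : ℤ} (hn : n ≠ 0) (h : P v (n * r - n + 1) (a ^ n)) :
    P v r a := by
  by_cases h0 : a = 0
  · rw [h0]; exact P.zero v r
  obtain ⟨k, hk⟩ := exists_exact v h0
  rw [P_iff_of_exact (exact_pow hk n)] at h
  rw [P_iff_of_exact hk]
  have hn' : (0 : ℤ) < n := by exact_mod_cast Nat.pos_of_ne_zero hn
  by_contra hc
  have : k ≤ r - 1 := by omega
  nlinarith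

lemma root0 {a : L} {n : ℕ} (hn : n ≠ 0) (h : P v 0 (a ^ n)) : P v 0 a :=
  of_pow hn (h.mono (by have := Nat.pos_of_ne_zero hn; omega))

lemma root1 {a : L} {n : ℕ} (hn : n ≠ 0) (h : P v 1 (a ^ n)) : P v 1 a :=
  of_pow hn (h.mono (by omega))

lemma unit_of {a b : L} (ha : P v 0 a) (hb : P v 0 b) (h : a * b = 1) : v a = exp (-0) := by
  refine exact_of_not ha fun h1 => not_P_one (v := v) ?_
  simpa [h] using h1.mul0 hb

lemma val4 {t W Wt c ct : L} {d k x y z : ℤ} (ht : t ^ 3 = (d : L)) (hx : (x : L) ≠ 0)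
    (hyz : IsCoprime y z) (hxc : IsCoprime x (3 * d * k)) (hW : P v 0 W) (hWt : P v 0 Wt)
    (hc : P v 0 c) (hct : P v 0 ct) (h1 : c * W = -((k : L) * z + y * t))
    (h2 : ct * Wt = ((k : L) * z) ^ 2 - (k * z) * (y * t) + (y * t) ^ 2)
    (h3 : W * Wt = (x : L) ^ 4) : ∃ j : ℤ, v W = exp (4 * j) := by
  by_cases hW1 : P v 1 W
  swap
  · exact ⟨0, by simpa using exact_of_not hW (by simpa using hW1)⟩
  by_cases hWt1 : P v 1 Wt
  swap
  · obtain ⟨m, hm⟩ := exists_exact v hx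
    have h4 := exact_pow hm 4
    have h5 := exact_of_not hWt (by simpa using hWt1)
    rw [← h3, map_mul, h5] at h4
    refine ⟨-m, ?_⟩
    simp only [neg_zero, exp_zero, mul_one] at h4
    rw [h4]; congr 1; push_cast; ring
  exfalso
  have ht0 : P v 0 t := root0 (n := 3) (by norm_num) (ht ▸ P.int v d)
  have hx1 : P v 1 (x : L) := root1 (n := 4) (by norm_num) (h3 ▸ hW1.mul0 hWt)
  have hu : ¬ P v 1 ((3 * d * k : ℤ) : L) := cop hxc hx1
  have hw : P v 1 (c * W) := hc.mul0' hW1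
  have hwt : P v 1 (ct * Wt) := hct.mul0' hWt1
  have hZ : P v 0 ((k : L) * z) := (P.int v k).mul0 (P.int v z)
  have hY : P v 0 ((y : L) * t) := (P.int v y).mul0 ht0
  have h2' : P v 0 (2 : L) := by simpa using P.int v 2
  have hA : P v 1 (3 * ((k : L) * z) ^ 2) :=
    (hwt.add (hw.mul0 (hY.sub (h2'.mul0 hZ)))).congr (by rw [h1, h2]; ring)
  have hB : P v 1 (3 * ((y : L) * t) ^ 2) :=
    (hwt.add (hw.mul0 (hZ.sub (h2'.mul0 hY)))).congr (by rw [h1, h2]; ring)
  have hz : P v 1 (z : L) := by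
    refine root1 (n := 2) (by norm_num) (cancel (P.int v _) hu (cancel (P.int v _) hu ?_))
    exact (hA.mul0 (P.int v (3 * d ^ 2))).congr (by push_cast; ring)
  have hy : P v 1 (y : L) := by
    refine root1 (n := 2) (by norm_num) (cancel (P.int v _) hu ?_)
    exact ((hB.mul0 ht0).mul0 (P.int v k)).congr (by push_cast; rw [← ht]; ring)
  exact cop hyz hy hz

end

/-! ### from even valuations to fourth powers -/

section
variable {K : Type} [Field K] [NumberField K] {t : K} {d : ℤ}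

/-- the shape of elements with even valuations and norm a square up to sign -/
def Drop (hK : Cubic K d t) (ep : K) (Q : K → Prop) : Prop :=
  ∀ X : K, X ≠ 0 → (∀ v : HeightOneSpectrum (𝓞 K), ∃ k : ℤ, v.valuation K X = exp (2 * k)) →
    ∀ r : ℚ, |nm hK X| = r ^ 2 → ∃ u g s : K, u ≠ 0 ∧ (s = 1 ∨ s = -1) ∧
      (g = 1 ∨ g = ep ∨ Q g) ∧ X = s * g * u ^ 2

lemma four (hK : Cubic K d t) {ep W : K} {Q : K → Prop} (hD : Drop hK ep Q) {x : ℚ} (hx : x ≠ 0)
    (hN : nm hK W = x ^ 4)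
    (hv : ∀ v : HeightOneSpectrum (𝓞 K), ∃ j : ℤ, v.valuation K W = exp (4 * j))
    (he : ∀ v : HeightOneSpectrum (𝓞 K), v.valuation K ep = exp (-0)) (heN : nm hK ep = 1)
    (no1 : ∀ u g, Q g → W ^ 2 ≠ g ^ 2 * u ^ 4)
    (no2 : ∀ u g g', (g = 1 ∨ g = ep) → Q g' → W ≠ g * g' ^ 2 * u ^ 4) :
    ∃ u : K, W = u ^ 4 ∨ W = ep * u ^ 4 ∨ W = ep * ep * u ^ 4 ∨ W = ep * (ep * ep) * u ^ 4 := by
  have hx4 : 0 < x ^ 4 := by positivity
  have hW : W ≠ 0 := by
    rintro rfl
    rw [nm_of hK (0, 0, 0) (by simp [e3])] at hN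
    simp [n3] at hN
    exact hx (pow_eq_zero_iff (n := 4) (by norm_num) |>.1 hN.symm)
  obtain ⟨u, g, s, hu, hs, hg, hX⟩ := hD W hW
    (fun v => (hv v).elim fun j hj => ⟨2 * j, by rw [hj]; congr 1; ring⟩) (x ^ 2)
    (by rw [hN, abs_of_pos hx4]; ring)
  have hs2 : s ^ 2 = 1 := by rcases hs with rfl | rfl <;> ring
  have hg' : g = 1 ∨ g = ep := by
    rcases hg with h | h | h
    · exact Or.inl h
    · exact Or.inr h
    · exact absurd (by rw [hX]; linear_combination (g ^ 2 * u ^ 4) * hs2) (no1 u g h)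
  have hgN : nm hK g = 1 := by
    rcases hg' with rfl | rfl
    · exact nm_one hK
    · exact heN
  have hgv : ∀ v : HeightOneSpectrum (𝓞 K), v.valuation K g = 1 := fun v => by
    rcases hg' with rfl | rfl
    · exact map_one _
    · simpa using he v
  have hN2 : nm hK s * nm hK u ^ 2 = x ^ 4 := by
    rw [← hN, hX, nm_mul, nm_mul, nm_sq, hgN, mul_one]
  obtain rfl : s = 1 := by
    rcases hs with h | rfl
    · exact h
    · rw [nm_neg_one] at hN2
      nlinarith [sq_nonneg (nm hK u)]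
  rw [nm_one, one_mul] at hN2
  rw [one_mul] at hX
  obtain ⟨u', g', s', hu', hs', hg2, hX'⟩ := hD u hu (fun v => by
      obtain ⟨j, hj⟩ := hv v
      obtain ⟨m, hm⟩ := exists_exact (v.valuation K) hu
      have h4 := exact_pow hm 2
      rw [hX, map_mul, hgv, one_mul, h4, exp_inj] at hj
      exact ⟨j, by rw [hm]; congr 1; push_cast at hj; omega⟩) x
    (by
      have : nm hK u ^ 2 = (x ^ 2) ^ 2 := by rw [hN2]; ring
      rw [sq_eq_sq_iff_abs_eq_abs] at this
      rw [this, abs_of_nonneg (sq_nonneg x)])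
  have hs2' : s' ^ 2 = 1 := by rcases hs' with rfl | rfl <;> ring
  have hW2 : W = g * g' ^ 2 * u' ^ 4 := by
    rw [hX, hX']; linear_combination (g * g' ^ 2 * u' ^ 4) * hs2'
  refine ⟨u', ?_⟩
  rcases hg2 with rfl | rfl | h
  · rcases hg' with rfl | rfl
    · exact Or.inl (by rw [hW2]; ring)
    · exact Or.inr (Or.inl (by rw [hW2]; ring))
  · rcases hg' with rfl | rfl
    · exact Or.inr (Or.inr (Or.inl (by rw [hW2]; ring)))
    · exact Or.inr (Or.inr (Or.inr (by rw [hW2]; ring)))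
  · exact absurd hW2 (no2 u' g g' hg' h)

lemma abs_nm (hK : Cubic K d t) {X s e A u ep : K} (hs : s = 1 ∨ s = -1) (he : e = 1 ∨ e = ep)
    (heN : nm hK ep = 1) (h : X = s * e * A * u ^ 2) :
    |nm hK X| = |nm hK A| * nm hK u ^ 2 := by
  have h1 : |nm hK s| = 1 := by
    rcases hs with rfl | rfl
    · rw [nm_one, abs_one]
    · rw [nm_neg_one]; norm_num
  have h2 : nm hK e = 1 := by
    rcases he with rfl | rfl
    · exact nm_one hK
    · exact heN
  rw [h, nm_mul, nm_mul, nm_mul, nm_sq, h2, abs_mul, abs_mul, abs_mul, h1,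
    abs_of_nonneg (sq_nonneg (nm hK u))]
  simp

/-- four generators, the last two with norms that are independent modulo squares -/
lemma drop4 (hK : Cubic K d t) {ep a b : K} (hS : SU K 6 [-1, ep, a, b]) (heN : nm hK ep = 1)
    {n1 n2 m1 m2 m3 : ℕ} (ha : nm hK a = n1) (hb : nm hK b = n2)
    (h1 : m1 * m1 < n1) (h1' : n1 < (m1 + 1) * (m1 + 1))
    (h2 : m2 * m2 < n2) (h2' : n2 < (m2 + 1) * (m2 + 1))
    (h3 : m3 * m3 < n1 * n2) (h3' : n1 * n2 < (m3 + 1) * (m3 + 1)) :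
    Drop hK ep fun _ => False := by
  intro X hX hv r hr
  obtain ⟨sel, u, hu, h⟩ := hS X hX fun v _ => hv v
  obtain ⟨s1, s, hs, e1⟩ := sel_cons (-1 : K) [ep, a, b] sel
  obtain ⟨s2, e, he, e2⟩ := sel_cons ep [a, b] s1
  obtain ⟨s3, A, hA, e3⟩ := sel_cons a [b] s2
  obtain ⟨s4, B, hB, e4⟩ := sel_cons b [] s3
  rw [e1, e2, e3, e4, sel_nil] at h
  have hn := abs_nm hK hs he heN (X := X) (A := A * B) (u := u) (by rw [h]; ring)
  rw [hr] at hn
  have hu' := nm_ne hK hu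
  rcases hA with rfl | rfl <;> rcases hB with rfl | rfl
  · exact ⟨u, e, s, hu, hs, he.imp id Or.inl, by rw [h]; ring⟩
  · rw [one_mul, hb, Nat.abs_cast] at hn
    exact (nsq h2 h2' hu' hn.symm).elim
  · rw [mul_one, ha, Nat.abs_cast] at hn
    exact (nsq h1 h1' hu' hn.symm).elim
  · rw [nm_mul, ha, hb, ← Nat.cast_mul, Nat.abs_cast] at hn
    exact (nsq h3 h3' hu' hn.symm).elim

lemma drop5 (hK : Cubic K 3 t) (hS : SU K 6 [-1, t ^ 2 - 2, t - 1, t ^ 2 + t + 1, t]) :
    Drop hK (t ^ 2 - 2) fun g => g = t ^ 2 + t + 1 ∨ g = (t ^ 2 - 2) * (t ^ 2 + t + 1) := by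
  have heN : nm hK (t ^ 2 - 2) = 1 := by
    rw [nm_of hK (-2, 0, 1) (by simp [e3]; ring)]; norm_num [n3]
  have ha : nm hK (t - 1) = 2 := by
    rw [nm_of hK (-1, 1, 0) (by simp [e3]; ring)]; norm_num [n3]
  have hq : nm hK (t ^ 2 + t + 1) = 4 := by
    rw [nm_of hK (1, 1, 1) (by simp [e3]; ring)]; norm_num [n3]
  have hb : nm hK t = 3 := by
    rw [nm_of hK (0, 1, 0) (by simp [e3])]; norm_num [n3]
  intro X hX hv r hr
  obtain ⟨sel, u, hu, h⟩ := hS X hX fun v _ => hv v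
  obtain ⟨s1, s, hs, e1⟩ := sel_cons (-1 : K) [t ^ 2 - 2, t - 1, t ^ 2 + t + 1, t] sel
  obtain ⟨s2, e, he, e2⟩ := sel_cons (t ^ 2 - 2) [t - 1, t ^ 2 + t + 1, t] s1
  obtain ⟨s3, A, hA, e3⟩ := sel_cons (t - 1) [t ^ 2 + t + 1, t] s2
  obtain ⟨s4, B, hB, e4⟩ := sel_cons (t ^ 2 + t + 1) [t] s3
  obtain ⟨s5, C, hC, e5⟩ := sel_cons t [] s4
  rw [e1, e2, e3, e4, e5, sel_nil] at h
  have hn := abs_nm hK hs he heN (X := X) (A := A * B * C) (u := u) (by rw [h]; ring)
  rw [hr, nm_mul, nm_mul] at hn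
  have hu' := nm_ne hK hu
  rcases hA with hA | hA <;> rcases hB with hB | hB <;> rcases hC with hC | hC <;>
    rw [hA, hB, hC] at hn h <;> simp only [nm_one, ha, hq, hb] at hn
  · exact ⟨u, e, s, hu, hs, he.imp id Or.inl, by rw [h]; ring⟩
  · exact (nsq (n := 3) (m := 1) (by norm_num) (by norm_num) hu' (by rw [hn]; norm_num)).elim
  · refine ⟨u, e * (t ^ 2 + t + 1), s, hu, hs, Or.inr (Or.inr ?_), by rw [h]; ring⟩
    rcases he with rfl | rfl
    · exact Or.inl (one_mul _)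
    · exact Or.inr rfl
  · exact (nsq (n := 12) (m := 3) (by norm_num) (by norm_num) hu' (by rw [hn]; norm_num)).elim
  · exact (nsq (n := 2) (m := 1) (by norm_num) (by norm_num) hu' (by rw [hn]; norm_num)).elim
  · exact (nsq (n := 6) (m := 2) (by norm_num) (by norm_num) hu' (by rw [hn]; norm_num)).elim
  · exact (nsq (n := 8) (m := 2) (by norm_num) (by norm_num) hu' (by rw [hn]; norm_num)).elim
  · exact (nsq (n := 24) (m := 4) (by norm_num) (by norm_num) hu' (by rw [hn]; norm_num)).elim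

/-! ### the prime of degree two above 2 in the field of the cube root of 3 -/

/-- integral coordinates -/
def I (t x : K) : Prop := ∃ A B C : ℤ, x = A + B * t + C * t ^ 2

/-- even coordinates -/
def Ev (t x : K) : Prop := ∃ y, I t y ∧ x = 2 * y

omit [NumberField K] in
lemma I.int (n : ℤ) : I t (n : K) := ⟨n, 0, 0, by simp⟩

omit [NumberField K] in
lemma I.add {a b : K} (ha : I t a) (hb : I t b) : I t (a + b) := by
  obtain ⟨A, B, C, rfl⟩ := ha
  obtain ⟨A', B', C', rfl⟩ := hb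
  exact ⟨A + A', B + B', C + C', by push_cast; ring⟩

lemma I.mul (hK : Cubic K 3 t) {a b : K} (ha : I t a) (hb : I t b) : I t (a * b) := by
  obtain ⟨A, B, C, rfl⟩ := ha
  obtain ⟨A', B', C', rfl⟩ := hb
  refine ⟨A * A' + 3 * (B * C' + C * B'), A * B' + B * A' + 3 * (C * C'),
    A * C' + B * B' + C * A', ?_⟩
  have := hK.ht
  push_cast at this ⊢
  rw [← this]; ring

lemma I.sq (hK : Cubic K 3 t) {a : K} (ha : I t a) : I t (a ^ 2) := by
  rw [pow_two]; exact ha.mul hK ha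

lemma Ev.mul (hK : Cubic K 3 t) {a b : K} (ha : Ev t a) (hb : I t b) : Ev t (a * b) := by
  obtain ⟨y, hy, rfl⟩ := ha
  exact ⟨y * b, hy.mul hK hb, by ring⟩

lemma int_inj (hK : Cubic K d t) {A B C A' B' C' : ℤ}
    (h : (A : K) + B * t + C * t ^ 2 = A' + B' * t + C' * t ^ 2) : A = A' ∧ B = B' ∧ C = C' := by
  have := e3_inj hK (a := (A, B, C)) (b := (A', B', C')) (by simpa [e3] using h)
  simpa using this

lemma Ev.of_sq (hK : Cubic K 3 t) {a : K} (ha : I t a) (h : Ev t (a ^ 2)) : Ev t a := by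
  obtain ⟨A, B, C, rfl⟩ := ha
  obtain ⟨y, ⟨A', B', C', rfl⟩, h⟩ := h
  have ht := hK.ht
  obtain ⟨h1, h2, h3⟩ := int_inj hK (A := A ^ 2 + 6 * B * C) (B := 2 * A * B + 3 * C ^ 2)
    (C := 2 * A * C + B ^ 2) (A' := 2 * A') (B' := 2 * B') (C' := 2 * C') (by
      push_cast at ht ⊢
      linear_combination h - (2 * B * C + C ^ 2 * t) * ht)
  have ev : ∀ n m : ℤ, n ^ 2 = 2 * m → ∃ k, n = 2 * k := fun n m h =>
    Int.prime_two.dvd_of_dvd_pow ⟨m, h⟩
  obtain ⟨a, rfl⟩ := ev A (A' - 3 * B * C) (by linear_combination h1)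
  obtain ⟨b, rfl⟩ := ev B (C' - 2 * a * C) (by linear_combination h3)
  obtain ⟨c, rfl⟩ := ev C (B' - 4 * a * b - C ^ 2) (by linear_combination h2)
  exact ⟨_, ⟨a, b, c, rfl⟩, by push_cast; ring⟩

lemma den (hK : Cubic K d t) (u : K) : ∃ m : ℕ, m ≠ 0 ∧ I t (m * u) := by
  obtain ⟨⟨a, b, c⟩, rfl⟩ := hK.span u
  refine ⟨a.den * b.den * c.den, by positivity, a.num * b.den * c.den, b.num * a.den * c.den,
    c.num * a.den * b.den, ?_⟩
  have ha : (a.den : K) ≠ 0 := by exact_mod_cast a.den_ne_zero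
  have hb : (b.den : K) ≠ 0 := by exact_mod_cast b.den_ne_zero
  have hc : (c.den : K) ≠ 0 := by exact_mod_cast c.den_ne_zero
  simp only [e3, Rat.cast_def]
  push_cast
  field_simp

lemma desc (hK : Cubic K 3 t) {Y : K} (hY : I t Y) (hn : ¬ Ev t Y) :
    ∀ m : ℕ, m ≠ 0 → ∀ U, I t U → (m : K) ^ 4 * Y ≠ 4 * U ^ 4 := by
  intro m
  induction m using Nat.strong_induction_on with
  | _ m ih =>
    intro hm U hU h
    have hU4 : I t (U ^ 4) := by
      have := (hU.sq hK).sq hK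
      rwa [← pow_mul] at this
    obtain ⟨n, rfl | rfl⟩ := Nat.even_or_odd' m
    · have h1 : (U ^ 2) ^ 2 = 2 * (((2 * n ^ 4 : ℤ) : K) * Y) := by
        push_cast at h ⊢
        have h4 : (4 : K) ≠ 0 := by norm_num
        apply mul_left_cancel₀ h4
        linear_combination -h
      obtain ⟨U', hU', rfl⟩ := Ev.of_sq hK hU (Ev.of_sq hK (hU.sq hK)
        ⟨_, (I.int _).mul hK hY, h1⟩)
      refine ih n (by omega) (by omega) U' hU' ?_
      push_cast at h
      have h16 : (16 : K) ≠ 0 := by norm_num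
      apply mul_left_cancel₀ h16
      linear_combination h
    · refine hn ⟨((2 : ℤ) : K) * U ^ 4 + ((-(8 * n ^ 4 + 16 * n ^ 3 + 12 * n ^ 2 + 4 * n) : ℤ) : K) * Y,
        ((I.int _).mul hK hU4).add ((I.int _).mul hK hY), ?_⟩
      push_cast at h ⊢
      linear_combination h

lemma noq (hK : Cubic K 3 t) {Y : K} (hY : I t Y) (hn : ¬ Ev t (Y * (t - 1) ^ 2)) (u : K) :
    Y ≠ (t ^ 2 + t + 1) ^ 2 * u ^ 4 := by
  intro h
  obtain ⟨m, hm, hU⟩ := den hK u
  have hp : I t (t - 1) := ⟨-1, 1, 0, by push_cast; ring⟩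
  refine desc hK (hY.mul hK (hp.sq hK)) hn m hm _ hU ?_
  have ht := hK.ht
  push_cast at ht
  rw [h]
  linear_combination ((m : K) ^ 4 * u ^ 4 * (t ^ 3 + 1)) * ht

end

/-! ### integers -/

lemma cop_of_gcd {x y z a b : ℤ} (hg : Int.gcd (Int.gcd x y) z = 1)
    (h : x ^ 4 + a * y ^ 3 + b * z ^ 3 = 0) : IsCoprime y z := by
  rw [Int.isCoprime_iff_gcd_eq_one]
  by_contra hc
  obtain ⟨p, hp, hd⟩ := Nat.exists_prime_and_dvd hc
  have hy : (p : ℤ) ∣ y := (Int.natCast_dvd_natCast.2 hd).trans (Int.gcd_dvd_left y z)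
  have hz : (p : ℤ) ∣ z := (Int.natCast_dvd_natCast.2 hd).trans (Int.gcd_dvd_right y z)
  have hx : (p : ℤ) ∣ x := by
    refine (Nat.prime_iff_prime_int.1 hp).dvd_of_dvd_pow (n := 4) ?_
    have : x ^ 4 = -(a * y ^ 2 * y + b * z ^ 2 * z) := by linear_combination h
    rw [this]
    exact ((hy.mul_left _).add (hz.mul_left _)).neg_right
  have h1 : (p : ℤ) ∣ (Int.gcd x y : ℤ) := Int.natCast_dvd_natCast.2 (Int.dvd_gcd hx hy)
  have h2 : p ∣ Int.gcd (Int.gcd x y) z := Int.dvd_gcd h1 hz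
  rw [hg] at h2
  exact hp.one_lt.ne' (Nat.dvd_one.1 h2)

lemma not_both {y z p : ℤ} (h : IsCoprime y z) (hp : 1 < p) (hy : p ∣ y) (hz : p ∣ z) : False := by
  have := Int.isUnit_iff.1 (h.isUnit_of_dvd' hy hz)
  omega

/-- a prime that divides `b` exactly once does not divide `x` -/
lemma not_dvd_once {x y z a b p : ℤ} (hp : Prime p) (hp1 : 1 < p) (ha : ¬ p ∣ a) (hb : ¬ p ∣ b)
    (hyz : IsCoprime y z) (h : x ^ 4 + p * a * y ^ 3 + b * z ^ 3 = 0) : ¬ p ∣ x := by
  rintro ⟨x, rfl⟩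
  have hz : p ∣ z := by
    refine hp.dvd_of_dvd_pow (n := 3) ((hp.dvd_or_dvd (a := b) ?_).resolve_left hb)
    exact ⟨-(p ^ 3 * x ^ 4 + a * y ^ 3), by linear_combination h⟩
  obtain ⟨z, rfl⟩ := hz
  refine not_both hyz hp1 ?_ (dvd_mul_right p z)
  refine hp.dvd_of_dvd_pow (n := 3) ((hp.dvd_or_dvd (a := a) ?_).resolve_left ha)
  refine ⟨-(p ^ 2 * x ^ 4 + b * p * z ^ 3), mul_left_cancel₀ hp.ne_zero ?_⟩
  linear_combination h

lemma three_not_dvd {x y z : ℤ} (hyz : IsCoprime y z) (h : x ^ 4 + 2 * y ^ 3 + z ^ 3 = 0) :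
    ¬ 3 ∣ x := by
  rintro ⟨x, rfl⟩
  obtain ⟨a, ha⟩ : ∃ a, z = y + 3 * a := by
    have h3 : (3 : ℤ) ∣ (z - y) ^ 3 :=
      ⟨-(27 * x ^ 4) - y ^ 3 - z ^ 2 * y + z * y ^ 2, by linear_combination h⟩
    obtain ⟨a, ha⟩ := Int.prime_three.dvd_of_dvd_pow h3
    exact ⟨a, by linear_combination ha⟩
  have hy : (3 : ℤ) ∣ y := by
    refine Int.prime_three.dvd_of_dvd_pow (n := 3)
      ⟨-(9 * x ^ 4 + y ^ 2 * a + 3 * y * a ^ 2 + 3 * a ^ 3), ?_⟩
    subst ha
    have h3 : (3 : ℤ) ≠ 0 := by norm_num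
    apply mul_left_cancel₀ h3
    linear_combination h
  exact not_both hyz (by norm_num) hy (ha ▸ hy.add (dvd_mul_right 3 a))

lemma cop_prime {x p : ℤ} (hp : Prime p) (h : ¬ p ∣ x) : IsCoprime x p :=
  (hp.irreducible.coprime_iff_not_dvd.2 h).symm

lemma ratio {y z a b : ℤ} (h : IsCoprime y z) (hab : IsCoprime a b) (e : a * y + b * z = 0) :
    (y = b ∧ z = -a) ∨ (y = -b ∧ z = a) := by
  have h1 : b ∣ y := hab.symm.dvd_of_dvd_mul_left ⟨-z, by linear_combination e⟩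
  have h2 : a ∣ z := hab.dvd_of_dvd_mul_left ⟨-y, by linear_combination e⟩
  obtain ⟨p, q, hpq⟩ := hab
  have hy : y = b * (q * y - p * z) := by linear_combination (-y) * hpq + p * e
  have hz : z = -a * (q * y - p * z) := by linear_combination (-z) * hpq + q * e
  have hu := Int.isUnit_iff.1 (h.isUnit_of_dvd' (x := q * y - p * z) ⟨b, by linear_combination hy⟩
    ⟨-a, by linear_combination hz⟩)
  rcases hu with hu | hu <;> rw [hu] at hy hz
  · exact Or.inl ⟨by linear_combination hy, by linear_combination hz⟩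
  · exact Or.inr ⟨by linear_combination hy, by linear_combination hz⟩

lemma root4 {x n : ℤ} (h : x ^ 4 = n ^ 4) : x = n ∨ x = -n :=
  sq_eq_sq_iff_eq_or_eq_neg.1 ((pow_left_inj₀ (sq_nonneg x) (sq_nonneg n) two_ne_zero).1
    (by linear_combination h))

lemma no4 {x n m : ℤ} (hm : 0 ≤ m) (h1 : m ^ 4 < n) (h2 : n < (m + 1) ^ 4) (h : x ^ 4 = n) :
    False := by
  have h3 : |x| ^ 4 = n := by rw [← h, pow_abs, abs_of_nonneg (by positivity)]
  rcases le_or_gt |x| m with h4 | h4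
  · have := pow_le_pow_left₀ (abs_nonneg x) h4 4
    omega
  · have := pow_le_pow_left₀ (by omega : 0 ≤ m + 1) (by omega : m + 1 ≤ |x|) 4
    omega

lemma neg4 {x n : ℤ} (hn : n < 0) (h : x ^ 4 = n) : False := by
  have : 0 ≤ x ^ 4 := by positivity
  omega

end R13

open R13

variable {K : Type} [Field K] [NumberField K] {t : K}

theorem E1_of (hK : Cubic K 2 t) (hS : SU K 6 [-1, t - 1, t, t + 1])
    (h0 : BB10) (h1 : BB11) (h2 : BB12) (h3 : BB13) (x y z : ℤ)
    (hg : Int.gcd (Int.gcd x y) z = 1) (h : x ^ 4 + 2 * y ^ 3 + z ^ 3 = 0) :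
    (x, y, z) ∈ ({(43, -203, 237), (-43, -203, 237), (1, -1, 1), (-1, -1, 1), (1, 0, -1),
      (-1, 0, -1)} : Set (ℤ × ℤ × ℤ)) := by
  have ht : t ^ 3 = 2 := by exact_mod_cast hK.ht
  have hyz : IsCoprime y z := cop_of_gcd (a := 2) (b := 1) hg (by linear_combination h)
  have hx2 : ¬ 2 ∣ x := not_dvd_once (a := 1) (b := 1) Int.prime_two (by norm_num) (by norm_num)
    (by norm_num) hyz (by linear_combination h)
  have hx3 := three_not_dvd hyz h
  have hx : x ≠ 0 := fun h0 => hx2 (h0 ▸ dvd_zero 2)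
  have hxc : IsCoprime x (3 * 2 * 1) :=
    ((cop_prime Int.prime_three hx3).mul_right (cop_prime Int.prime_two hx2)).mul_right
      isCoprime_one_right
  have hq : (x : ℚ) ^ 4 + 2 * y ^ 3 + z ^ 3 = 0 := by exact_mod_cast h
  have hk : (x : K) ^ 4 + 2 * y ^ 3 + z ^ 3 = 0 := by exact_mod_cast h
  have heN : nm hK (t - 1) = 1 := by
    rw [nm_of hK (-1, 1, 0) (by simp [e3]; ring)]; norm_num [n3]
  have hD := drop4 hK hS heN (n1 := 2) (n2 := 3) (m1 := 1) (m2 := 1) (m3 := 2)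
    (by rw [nm_of hK (0, 1, 0) (by simp [e3])]; norm_num [n3])
    (by rw [nm_of hK (1, 1, 0) (by simp [e3]; ring)]; norm_num [n3])
    (by norm_num) (by norm_num) (by norm_num) (by norm_num) (by norm_num) (by norm_num)
  have ht0 : ∀ v : Valuation K Gam, P v 0 t := fun v =>
    root0 (n := 3) (by norm_num) (hK.ht ▸ P.int v 2)
  obtain ⟨u, hu⟩ := four hK hD (W := -((z : K) + y * t)) (x := x) (by exact_mod_cast hx)
    (by rw [nm_of hK (-z, -y, 0) (by simp [e3]; ring)]; simp only [n3]; push_cast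
        linear_combination -hq)
    (fun v => val4 (k := 1) (c := 1) (ct := 1) (Wt := (z : K) ^ 2 - z * (y * t) + (y * t) ^ 2)
      hK.ht (by exact_mod_cast hx) hyz hxc
      ((P.int _ z).add ((P.int _ y).mul0 (ht0 _))).neg
      ((((P.int _ z).mul0 (P.int _ z)).sub ((P.int _ z).mul0 ((P.int _ y).mul0 (ht0 _)))).add
        (((P.int _ y).mul0 (ht0 _)).mul0 ((P.int _ y).mul0 (ht0 _))) |>.congr (by ring))
      (P.one _) (P.one _) (by push_cast; ring) (by push_cast; ring)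
      (by linear_combination -hk - (y : K) ^ 3 * ht))
    (fun v => unit_of (b := t * t + t + 1) ((ht0 _).sub (P.one _))
      ((((ht0 _).mul0 (ht0 _)).add (ht0 _)).add (P.one _)) (by linear_combination ht))
    heN (fun _ _ h => h.elim) (fun _ _ _ _ h => h.elim)
  have he : e3 t eps2 = t - 1 := by simp [e3, eps2]; ring
  have h' : (1 : ℤ) ^ 2 * x ^ 4 + 2 * y ^ 3 + (1 * z) ^ 3 = 0 := by linear_combination h
  simp only [Set.mem_insert_iff, Set.mem_singleton_iff, Prod.mk.injEq]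
  rcases hu with hu | hu | hu | hu
  · have hy := h0 x y z hx hyz h' (fac_of hK (u := u) (by simp [e3]; linear_combination hu))
    rcases ratio (a := 1) (b := 0) hyz (by norm_num) (by linear_combination hy) with
      ⟨rfl, rfl⟩ | ⟨rfl, rfl⟩
    · rcases root4 (x := x) (n := 1) (by linear_combination h) with rfl | rfl <;> simp
    · exact (neg4 (x := x) (n := -1) (by norm_num) (by linear_combination h)).elim
  · rcases h1 x y z hx hyz h' (fac_of hK (u := u) (by rw [he]; push_cast; linear_combination hu))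
      with hy | hy | hy | hy
    · rcases ratio (a := 1) (b := 1) hyz (by norm_num) (by linear_combination hy) with
        ⟨rfl, rfl⟩ | ⟨rfl, rfl⟩
      · exact (neg4 (x := x) (n := -1) (by norm_num) (by linear_combination h)).elim
      · rcases root4 (x := x) (n := 1) (by linear_combination h) with rfl | rfl <;> simp
    · rcases ratio (a := 1) (b := -1) hyz (by norm_num) (by linear_combination hy) with
        ⟨rfl, rfl⟩ | ⟨rfl, rfl⟩
      · exact (no4 (x := x) (n := 3) (m := 1) (by norm_num) (by norm_num) (by norm_num)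
          (by linear_combination h)).elim
      · exact (neg4 (x := x) (n := -3) (by norm_num) (by linear_combination h)).elim
    · rcases ratio (a := 237) (b := 203) hyz (by norm_num) hy with ⟨rfl, rfl⟩ | ⟨rfl, rfl⟩
      · exact (neg4 (x := x) (n := -3418801) (by norm_num) (by linear_combination h)).elim
      · rcases root4 (x := x) (n := 43) (by linear_combination h) with rfl | rfl <;> simp
    · rcases ratio (a := 37) (b := 29) hyz (by norm_num) hy with ⟨rfl, rfl⟩ | ⟨rfl, rfl⟩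
      · exact (no4 (x := x) (n := 1875) (m := 6) (by norm_num) (by norm_num) (by norm_num)
          (by linear_combination h)).elim
      · exact (neg4 (x := x) (n := -1875) (by norm_num) (by linear_combination h)).elim
  · exact (h2 x y z hx hyz h' (fac_of hK (u := u) (by
      have := e3_m3 hK.ht eps2 eps2
      push_cast at this ⊢
      rw [this, he]; linear_combination hu))).elim
  · exact (h3 x y z hx hyz h' (fac_of hK (u := u) (by
      have h4 := e3_m3 hK.ht eps2 eps2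
      have h5 := e3_m3 hK.ht eps2 (m3 2 eps2 eps2)
      push_cast at h4 h5 ⊢
      rw [h5, h4, he]; linear_combination hu))).elim

theorem E2_of (hK : Cubic K 3 t) (hS : SU K 6 [-1, t ^ 2 - 2, t - 1, t ^ 2 + t + 1, t])
    (h0 : BB20) (h1 : BB21) (h2 : BB22) (h3 : BB23) (x y z : ℤ)
    (hg : Int.gcd (Int.gcd x y) z = 1) (h : x ^ 4 + 3 * y ^ 3 + z ^ 3 = 0) :
    (x, y, z) ∈ ({(895, -6202, 4199), (-895, -6202, 4199), (1, 0, -1), (-1, 0, -1)} :
      Set (ℤ × ℤ × ℤ)) := by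
  have ht : t ^ 3 = 3 := by exact_mod_cast hK.ht
  have hyz : IsCoprime y z := cop_of_gcd (a := 3) (b := 1) hg (by linear_combination h)
  have hx3 : ¬ 3 ∣ x := not_dvd_once (a := 1) (b := 1) Int.prime_three (by norm_num) (by norm_num)
    (by norm_num) hyz (by linear_combination h)
  have hx : x ≠ 0 := fun h0 => hx3 (h0 ▸ dvd_zero 3)
  have hxc : IsCoprime x (3 * 3 * 1) :=
    ((cop_prime Int.prime_three hx3).mul_right (cop_prime Int.prime_three hx3)).mul_right
      isCoprime_one_right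
  have hq : (x : ℚ) ^ 4 + 3 * y ^ 3 + z ^ 3 = 0 := by exact_mod_cast h
  have hk : (x : K) ^ 4 + 3 * y ^ 3 + z ^ 3 = 0 := by exact_mod_cast h
  have heN : nm hK (t ^ 2 - 2) = 1 := by
    rw [nm_of hK (-2, 0, 1) (by simp [e3]; ring)]; norm_num [n3]
  have ht0 : ∀ v : Valuation K Gam, P v 0 t := fun v =>
    root0 (n := 3) (by norm_num) (hK.ht ▸ P.int v 3)
  have hinv : (t ^ 2 - 2) * (4 + 3 * t + 2 * t ^ 2) = 1 := by linear_combination (3 + 2 * t) * ht
  have hIW : I t (-((z : K) + y * t)) := ⟨-z, -y, 0, by push_cast; ring⟩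
  have hIe : I t (t ^ 2 - 2) := ⟨-2, 0, 1, by push_cast; ring⟩
  have hIi : I t (4 + 3 * t + 2 * t ^ 2) := ⟨4, 3, 2, by push_cast; ring⟩
  have hI1 : I t 1 := ⟨1, 0, 0, by push_cast; ring⟩
  have hIp : I t (t - 1) := ⟨-1, 1, 0, by push_cast; ring⟩
  have hodd : ¬ Ev t ((-((z : K) + y * t) * (t - 1)) ^ 2) := by
    intro hc
    obtain ⟨_, ⟨A, B, C, rfl⟩, hc⟩ := Ev.of_sq hK (hIW.mul hK hIp) hc
    obtain ⟨e1, -, e2⟩ := int_inj hK (A := z) (B := y - z) (C := -y) (A' := 2 * A) (B' := 2 * B)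
      (C' := 2 * C) (by push_cast; linear_combination hc)
    exact not_both hyz (p := 2) (by norm_num) ⟨-C, by linear_combination -e2⟩ ⟨A, e1⟩
  have hun : ∀ g : K, g = 1 ∨ g = t ^ 2 - 2 → ∃ g', I t g ∧ I t g' ∧ g * g' = 1 := by
    rintro g (rfl | rfl)
    · exact ⟨1, hI1, hI1, one_mul 1⟩
    · exact ⟨_, hIe, hIi, hinv⟩
  have hQ : ∀ g : K, g = t ^ 2 + t + 1 ∨ g = (t ^ 2 - 2) * (t ^ 2 + t + 1) →
      ∃ e e', I t e ∧ I t e' ∧ e * e' = 1 ∧ g = e * (t ^ 2 + t + 1) := by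
    rintro g (rfl | rfl)
    · exact ⟨1, 1, hI1, hI1, one_mul 1, (one_mul _).symm⟩
    · exact ⟨_, _, hIe, hIi, hinv, rfl⟩
  obtain ⟨u, hu⟩ := four hK (drop5 hK hS) (W := -((z : K) + y * t)) (x := x) (by exact_mod_cast hx)
    (by rw [nm_of hK (-z, -y, 0) (by simp [e3]; ring)]; simp only [n3]; push_cast
        linear_combination -hq)
    (fun v => val4 (k := 1) (c := 1) (ct := 1) (Wt := (z : K) ^ 2 - z * (y * t) + (y * t) ^ 2)
      hK.ht (by exact_mod_cast hx) hyz hxc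
      ((P.int _ z).add ((P.int _ y).mul0 (ht0 _))).neg
      ((((P.int _ z).mul0 (P.int _ z)).sub ((P.int _ z).mul0 ((P.int _ y).mul0 (ht0 _)))).add
        (((P.int _ y).mul0 (ht0 _)).mul0 ((P.int _ y).mul0 (ht0 _))) |>.congr (by ring))
      (P.one _) (P.one _) (by push_cast; ring) (by push_cast; ring)
      (by linear_combination -hk - (y : K) ^ 3 * ht))
    (fun v => unit_of (b := 4 + 3 * t + 2 * t ^ 2)
      ((((ht0 _).mul0 (ht0 _)).sub (P.int _ 2)).congr (by push_cast; ring))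
      ((((P.int _ 4).add ((P.int _ 3).mul0 (ht0 _))).add
        ((P.int _ 2).mul0 ((ht0 _).mul0 (ht0 _)))).congr (by push_cast; ring)) hinv)
    heN
    (fun u g hg hc => by
      obtain ⟨e, e', he, he', hee, rfl⟩ := hQ g hg
      refine noq hK ((hIW.mul hK he').sq hK) (fun hev => hodd ?_) u ?_
      · have := hev.mul hK (he.sq hK)
        convert this using 1
        linear_combination
          (-((-((z : K) + y * t) * (t - 1)) ^ 2 * (e * e' + 1))) * hee
      · linear_combination e' ^ 2 * hc + ((t ^ 2 + t + 1) ^ 2 * u ^ 4 * (e * e' + 1)) * hee)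
    (fun u g g' hg hg' hc => by
      obtain ⟨e, e', he, he', hee, rfl⟩ := hQ g' hg'
      obtain ⟨f, hf, hf', hff⟩ := hun g hg
      have h1 : g * e ^ 2 * (f * e' ^ 2) = 1 := by
        linear_combination (e * e') ^ 2 * hff + (e * e' + 1) * hee
      refine noq hK (hIW.mul hK (hf'.mul hK (he'.sq hK))) (fun hev => hodd ?_) u ?_
      · have := hev.mul hK (hIW.mul hK (hf.mul hK (he.sq hK)))
        convert this using 1
        linear_combination (-((-((z : K) + y * t) * (t - 1)) ^ 2)) * h1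
      · linear_combination (f * e' ^ 2) * hc + ((t ^ 2 + t + 1) ^ 2 * u ^ 4) * h1)
  have he : e3 t eps3 = t ^ 2 - 2 := by simp [e3, eps3]; ring
  have h' : (1 : ℤ) ^ 2 * x ^ 4 + 3 * y ^ 3 + (1 * z) ^ 3 = 0 := by linear_combination h
  simp only [Set.mem_insert_iff, Set.mem_singleton_iff, Prod.mk.injEq]
  rcases hu with hu | hu | hu | hu
  · rcases h0 x y z hx hyz h' (fac_of hK (u := u) (by simp [e3]; linear_combination hu))
      with hy | hy
    · rcases ratio (a := 1) (b := 0) hyz (by norm_num) (by linear_combination hy) with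
        ⟨rfl, rfl⟩ | ⟨rfl, rfl⟩
      · rcases root4 (x := x) (n := 1) (by linear_combination h) with rfl | rfl <;> simp
      · exact (neg4 (x := x) (n := -1) (by norm_num) (by linear_combination h)).elim
    · rcases ratio (a := 0) (b := 1) hyz (by norm_num) (by linear_combination hy) with
        ⟨rfl, rfl⟩ | ⟨rfl, rfl⟩
      · exact (neg4 (x := x) (n := -3) (by norm_num) (by linear_combination h)).elim
      · exact (no4 (x := x) (n := 3) (m := 1) (by norm_num) (by norm_num) (by norm_num)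
          (by linear_combination h)).elim
  · rcases h1 x y z hx hyz h' (fac_of hK (u := u) (by rw [he]; push_cast; linear_combination hu))
      with hy | hy
    · rcases ratio (a := 4199) (b := 6202) hyz (by norm_num) hy with ⟨rfl, rfl⟩ | ⟨rfl, rfl⟩
      · exact (neg4 (x := x) (n := -895 ^ 4) (by norm_num) (by linear_combination h)).elim
      · rcases root4 (x := x) (n := 895) (by linear_combination h) with rfl | rfl <;> simp
    · rcases ratio (a := 3) (b := 2) hyz (by norm_num) hy with ⟨rfl, rfl⟩ | ⟨rfl, rfl⟩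
      · exact (no4 (x := x) (n := 3) (m := 1) (by norm_num) (by norm_num) (by norm_num)
          (by linear_combination h)).elim
      · exact (neg4 (x := x) (n := -3) (by norm_num) (by linear_combination h)).elim
  · exact (h2 x y z hx hyz h' (fac_of hK (u := u) (by
      have := e3_m3 hK.ht eps3 eps3
      push_cast at this ⊢
      rw [this, he]; linear_combination hu))).elim
  · exact (h3 x y z hx hyz h' (fac_of hK (u := u) (by
      have h4 := e3_m3 hK.ht eps3 eps3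
      have h5 := e3_m3 hK.ht eps3 (m3 3 eps3 eps3)
      push_cast at h4 h5 ⊢
      rw [h5, h4, he]; linear_combination hu))).elim

theorem E3_of (hK : Cubic K 12 t) (hS : SU K 6 [-1, e3 t eps12, 2, t])
    (h0 : BB30) (h1 : BB31) (h2 : BB32) (h3 : BB33) (x y z : ℤ)
    (hg : Int.gcd (Int.gcd x y) z = 1) (h : x ^ 4 + 3 * y ^ 3 + 2 * z ^ 3 = 0) :
    (x, y, z) ∈ ({(1, -1, 1), (-1, -1, 1)} : Set (ℤ × ℤ × ℤ)) := by
  have ht : t ^ 3 = 12 := by exact_mod_cast hK.ht
  have hyz : IsCoprime y z := cop_of_gcd hg h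
  have hx3 : ¬ 3 ∣ x := not_dvd_once (a := 1) (b := 2) Int.prime_three (by norm_num) (by norm_num)
    (by norm_num) hyz (by linear_combination h)
  have hx2 : ¬ 2 ∣ x := not_dvd_once (a := 1) (b := 3) Int.prime_two (by norm_num) (by norm_num)
    (by norm_num) hyz.symm (by linear_combination h)
  have hx : x ≠ 0 := fun h0 => hx2 (h0 ▸ dvd_zero 2)
  have c2 := cop_prime Int.prime_two hx2
  have c3 := cop_prime Int.prime_three hx3
  have hxc : IsCoprime x (3 * 12 * 2) := by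
    simpa using (c3.mul_right (c3.mul_right (c2.mul_right c2))).mul_right c2
  have hq : (x : ℚ) ^ 4 + 3 * y ^ 3 + 2 * z ^ 3 = 0 := by exact_mod_cast h
  have hk : (x : K) ^ 4 + 3 * y ^ 3 + 2 * z ^ 3 = 0 := by exact_mod_cast h
  have heN : nm hK (e3 t eps12) = 1 := by rw [nm_e3]; norm_num [n3, eps12]
  have hD := drop4 hK hS heN (n1 := 8) (n2 := 12) (m1 := 2) (m2 := 3) (m3 := 9)
    (by rw [nm_of hK (2, 0, 0) (by simp [e3])]; norm_num [n3])
    (by rw [nm_of hK (0, 1, 0) (by simp [e3])]; norm_num [n3])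
    (by norm_num) (by norm_num) (by norm_num) (by norm_num) (by norm_num) (by norm_num)
  have ht0 : ∀ v : Valuation K Gam, P v 0 t := fun v =>
    root0 (n := 3) (by norm_num) (hK.ht ▸ P.int v 12)
  obtain ⟨s, hs⟩ : ∃ s : K, t ^ 2 = 2 * s := ⟨t ^ 2 / 2, by ring⟩
  have hs0 : ∀ v : Valuation K Gam, P v 0 s := fun v =>
    root0 (n := 3) (by norm_num) ((P.int v 18).congr (by
      push_cast
      linear_combination (t ^ 3 + 12) / 8 * ht - (t ^ 4 + 2 * s * t ^ 2 + 4 * s ^ 2) / 8 * hs))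
  have hl : ∀ (v : Valuation K Gam) (a b c : ℤ), P v 0 ((a : K) + b * t + c * s) := fun v a b c =>
    ((P.int v a).add ((P.int v b).mul0 (ht0 v))).add ((P.int v c).mul0 (hs0 v))
  have he : e3 t eps12 = 1 + 3 * t - 3 * s := by
    simp only [e3, eps12]; push_cast; linear_combination (-3 / 2) * hs
  have hts : t * s = 6 := by linear_combination (1 / 2) * ht - (t / 2) * hs
  have hss : s ^ 2 = 3 * t := by linear_combination (t / 4) * ht - ((t ^ 2 + 2 * s) / 4) * hs
  obtain ⟨W, hW⟩ : ∃ W : K, W = -(2 * z + 3 * y) - (z + y) * t - (z + y) * s := ⟨_, rfl⟩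
  have hcW : (t - 2) * W = -(2 * z + y * t) := by
    rw [hW]; linear_combination (-((z : K) + y)) * hs - ((z : K) + y) * hts
  obtain ⟨u, hu⟩ := four hK hD (W := W) (x := x) (by exact_mod_cast hx)
    (by rw [nm_of hK (-(2 * z + 3 * y), -(z + y), -(z + y) / 2) (by
          simp only [e3]; push_cast; linear_combination hW + ((z : K) + y) / 2 * hs)]
        simp only [n3]; push_cast
        linear_combination -hq)
    (fun v => val4 (k := 2) (c := t - 2) (ct := 4 + 2 * t + 2 * s)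
      (Wt := (3 * y ^ 2 - 2 * z ^ 2 : K) + (z ^ 2 + y * z) * t - (y * z + y ^ 2) * s)
      hK.ht (by exact_mod_cast hx) hyz hxc
      ((hl _ (-(2 * z + 3 * y)) (-(z + y)) (-(z + y))).congr (by rw [hW]; push_cast; ring))
      ((hl _ (3 * y ^ 2 - 2 * z ^ 2) (z ^ 2 + y * z) (-(y * z + y ^ 2))).congr
        (by push_cast; ring))
      ((hl _ (-2) 1 0).congr (by push_cast; ring)) ((hl _ 4 2 2).congr (by push_cast; ring))
      (by push_cast; exact hcW)
      (by push_cast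
          linear_combination (2 * ((z : K) ^ 2 + y * z) - y ^ 2) * hs
            + (2 * ((z : K) ^ 2 + y * z) - 2 * (y * z + y ^ 2)) * hts
            - 2 * ((y : K) * z + y ^ 2) * hss)
      (by rw [hW]
          linear_combination -hk - ((z : K) + y) * (z ^ 2 + y * z) * hs
            + ((z : K) + y) * ((y * z + y ^ 2) - (z ^ 2 + y * z)) * hts
            + ((z : K) + y) * (y * z + y ^ 2) * hss))
    (fun v => unit_of (b := 55 + 24 * t + 21 * s)
      ((hl _ 1 3 (-3)).congr (by rw [he]; push_cast; ring))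
      ((hl _ 55 24 21).congr (by push_cast; ring))
      (by rw [he]; linear_combination 72 * hs - 9 * hts - 63 * hss))
    heN (fun _ _ h => h.elim) (fun _ _ _ _ h => h.elim)
  have hc : e3 t c12 = t - 2 := by simp [e3, c12]; ring
  have h' : (2 : ℤ) ^ 2 * x ^ 4 + 12 * y ^ 3 + (2 * z) ^ 3 = 0 := by linear_combination 4 * h
  have h4 := e3_m3 hK.ht eps12 eps12
  have h5 := e3_m3 hK.ht eps12 (m3 12 eps12 eps12)
  have h6 := fun a => e3_m3 hK.ht c12 a
  simp only [Set.mem_insert_iff, Set.mem_singleton_iff, Prod.mk.injEq]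
  push_cast at h4 h5 h6
  rcases hu with hu | hu | hu | hu
  · have hy := h0 x y z hx hyz h' (fac_of hK (u := u) (by
      rw [hc, ← hu, hcW]; push_cast; ring))
    rcases ratio (a := 1) (b := 1) hyz (by norm_num) (by linear_combination hy) with
      ⟨rfl, rfl⟩ | ⟨rfl, rfl⟩
    · exact (neg4 (x := x) (n := -1) (by norm_num) (by linear_combination h)).elim
    · rcases root4 (x := x) (n := 1) (by linear_combination h) with rfl | rfl <;> simp
  · have hy := h1 x y z hx hyz h' (fac_of hK (u := u) (by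
      rw [h6, hc, mul_assoc, ← hu, hcW]; push_cast; ring))
    rcases ratio (a := 0) (b := 1) hyz (by norm_num) (by linear_combination hy) with
      ⟨rfl, rfl⟩ | ⟨rfl, rfl⟩
    · exact (neg4 (x := x) (n := -3) (by norm_num) (by linear_combination h)).elim
    · exact (no4 (x := x) (n := 3) (m := 1) (by norm_num) (by norm_num) (by norm_num)
        (by linear_combination h)).elim
  · exact (h2 x y z hx hyz h' (fac_of hK (u := u) (by
      rw [h6, h4, hc, mul_assoc, ← hu, hcW]; push_cast; ring))).elim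
  · exact (h3 x y z hx hyz h' (fac_of hK (u := u) (by
      rw [h6, h5, h4, hc, mul_assoc, ← hu, hcW]; push_cast; ring))).elim

lemma R13.mu_sq {F : Type*} [Field F] {c0 c1 c2 b0 b1 b2 r : F}
    (hr : r ^ 2 = c0 ^ 2 + c1 ^ 2 + c2 ^ 2 - c0 * c1 - c0 * c2 - c1 * c2)
    (hT : c0 * (2 * b0 * b2 + b1 ^ 2) + c1 * (2 * b0 * b1 + b2 ^ 2) + c2 * (b0 ^ 2 + 2 * b1 * b2) = 0) :
    ((c0 + c1 + c2) * (b0 + b1 + b2) - 3 * (c0 * b2 + c1 * b1 + c2 * b0)
      + r * (3 * b0 - (b0 + b1 + b2))) ^ 2 = ((c0 + c1 + c2) - 3 * c2 + 2 * r) *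
      ((c0 + c1 + c2) * (b0 + b1 + b2) ^ 2
        + 2 * r * (b0 ^ 2 + b1 ^ 2 + b2 ^ 2 - b0 * b1 - b0 * b2 - b1 * b2)) := by
  linear_combination (-3 * ((c0 + c1 + c2) - 3 * c2 + 2 * r)) * hT +
    ((3 * b0 - (b0 + b1 + b2)) ^ 2
      - 4 * (b0 ^ 2 + b1 ^ 2 + b2 ^ 2 - b0 * b1 - b0 * b2 - b1 * b2)) * hr

/-- the data attached to a solution in any field containing `t`, `rho` -/
theorem eta_exists {F : Type*} [Field F] [CharZero F] {d k : ℤ} {c : Q3} {t rho : F}
    (ht : t ^ 3 = (d : F)) (hn : n3 d c = (k : ℚ) ^ 2) (hk : k ≠ 0)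
    (hr : rho ^ 2 * e3 t c ^ 3 = (k : F) ^ 2) {x y z : ℤ} (hx : x ≠ 0)
    (h : k ^ 2 * x ^ 4 + d * y ^ 3 + (k * z) ^ 3 = 0) (hf : Fac d k c y z) :
    ∃ al : F, al ≠ 0 ∧ -((k : F) * z + y * t) = e3 t c * al ^ 4 ∧
      4 * (rho * (x / al ^ 3) ^ 2) ^ 2 = 1 + 3 * (((k : F) * z - y * t) / ((k : F) * z + y * t)) ^ 2 ∧
      ∀ sig : F, t ≠ 0 → sig ≠ 0 →
        sig ^ 2 = 1 - (3 * d * c.2.2 : ℚ) / (t * e3 t c) + 2 * rho →
        ∃ xi : F, xi ^ 2 = 1 + 2 * (rho * (x / al ^ 3) ^ 2) := by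
  obtain ⟨a, ha⟩ := hf
  have hkF : (k : F) ≠ 0 := by exact_mod_cast hk
  have hxF : (x : F) ≠ 0 := by exact_mod_cast hx
  have hF : (k : F) ^ 2 * x ^ 4 + d * y ^ 3 + (k * z) ^ 3 = 0 := by exact_mod_cast h
  have hw : -((k : F) * z + y * t) = e3 t c * e3 t a ^ 4 := by
    rw [← e3_p4 ht, ← e3_m3 ht, ha]
    simp only [e3]; push_cast; ring
  have hww : -((k : F) * z + y * t) * ((k * z) ^ 2 - (k * z) * (y * t) + (y * t) ^ 2) =
      k ^ 2 * x ^ 4 := by linear_combination -hF - (y : F) ^ 3 * ht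
  have hw0 : (k : F) * z + y * t ≠ 0 := fun h0 => by
    rw [h0, neg_zero, zero_mul] at hww
    exact mul_ne_zero (pow_ne_zero 2 hkF) (pow_ne_zero 4 hxF) hww.symm
  have hca : e3 t c * e3 t a ^ 4 ≠ 0 := hw ▸ neg_ne_zero.2 hw0
  have hc0 : e3 t c ≠ 0 := left_ne_zero_of_mul hca
  have ha0 : e3 t a ≠ 0 := fun h0 => hca (by rw [h0]; ring)
  refine ⟨e3 t a, ha0, hw, ?_, fun sig ht0 hs0 hs => ?_⟩
  · have h1 : 1 + 3 * (((k : F) * z - y * t) / ((k : F) * z + y * t)) ^ 2 =
        4 * (k ^ 2 * x ^ 4) / (-((k : F) * z + y * t)) ^ 3 := by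
      rw [← hww]; field_simp; ring
    rw [h1, hw, ← hr]; field_simp
  · have hN : n3 d a ^ 2 = (x : ℚ) ^ 2 := by
      have h1 := congrArg (n3 d) ha
      rw [n3_m3, n3_p4, hn] at h1
      have hQ : (k : ℚ) ^ 2 * x ^ 4 + d * y ^ 3 + (k * z) ^ 3 = 0 := by exact_mod_cast h
      have hkQ : (k : ℚ) ^ 2 ≠ 0 := pow_ne_zero 2 (by exact_mod_cast hk)
      have h2 : (n3 d a ^ 2) ^ 2 = ((x : ℚ) ^ 2) ^ 2 := by
        apply mul_left_cancel₀ hkQ
        simp only [n3] at h1 ⊢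
        linear_combination h1 - hQ
      exact (pow_left_inj₀ (sq_nonneg _) (sq_nonneg _) two_ne_zero).1 h2
    obtain ⟨b, hb⟩ : ∃ b, b = m3 d a a := ⟨_, rfl⟩
    have hB : e3 t b = e3 t a ^ 2 := by rw [hb, e3_m3 ht, pow_two]
    have hNb : n3 d b = (x : ℚ) ^ 2 := by rw [hb, n3_m3, ← hN, pow_two]
    have hT : (m3 d c (m3 d b b)).2.2 = 0 := by rw [hb]; exact congrArg (fun p => p.2.2) ha
    obtain ⟨c0, c1, c2⟩ := c
    obtain ⟨b0, b1, b2⟩ := b
    have hx2 : (x : F) ^ 2 = (b0 + b1 * t + b2 * t ^ 2) * (b0 ^ 2 + (b1 * t) ^ 2 + (b2 * t ^ 2) ^ 2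
        - b0 * (b1 * t) - b0 * (b2 * t ^ 2) - (b1 * t) * (b2 * t ^ 2)) := by
      have := congrArg (Rat.cast : ℚ → F) hNb
      simp only [n3] at this
      push_cast at this
      rw [← this, ← ht]; ring
    have hk2 : (k : F) ^ 2 = (c0 + c1 * t + c2 * t ^ 2) * (c0 ^ 2 + (c1 * t) ^ 2 + (c2 * t ^ 2) ^ 2
        - c0 * (c1 * t) - c0 * (c2 * t ^ 2) - (c1 * t) * (c2 * t ^ 2)) := by
      have := congrArg (Rat.cast : ℚ → F) hn
      simp only [n3] at this
      push_cast at this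
      rw [← this, ← ht]; ring
    have hT' := congrArg (Rat.cast : ℚ → F) hT
    simp only [m3] at hT'
    push_cast at hT' hs
    rw [← ht] at hT' hs
    have h6 : (x / e3 t a ^ 3) ^ 2 = x ^ 2 / e3 t (b0, b1, b2) ^ 3 := by
      rw [hB]; field_simp
    have hB0 : e3 t (b0, b1, b2) ≠ 0 := hB ▸ pow_ne_zero 2 ha0
    rw [h6]
    simp only [e3] at hr hc0 hs hB0 ⊢
    generalize hC : (c0 : F) + c1 * t + c2 * t ^ 2 = C at *
    generalize hBB : (b0 : F) + b1 * t + b2 * t ^ 2 = B at *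
    have key := R13.mu_sq (c0 := (c0 : F)) (c1 := c1 * t) (c2 := c2 * t ^ 2) (b0 := (b0 : F))
      (b1 := b1 * t) (b2 := b2 * t ^ 2) (r := rho * C)
      (mul_left_cancel₀ hc0 (by linear_combination hr + hk2)) (by linear_combination t ^ 2 * hT')
    rw [hC, hBB] at key
    have hs' : C - 3 * (c2 * t ^ 2) + 2 * (rho * C) = C * sig ^ 2 := by
      rw [hs]; field_simp
    rw [hs'] at key
    refine ⟨_ / (C * sig * B), by rw [div_pow, key, hx2]; field_simp⟩

end Pool.Agent.Lib.MP_ab8df0_nt.C
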