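import Pool.Agent.Lib.MP_ab8df0_nt.A.K2.Main
import Pool.Agent.Lib.MP_ab8df0_nt.A.K3.Main
import Pool.Agent.Lib.MP_ab8df0_nt.A.K12.Main
import Pool.Agent.Lib.MP_ab8df0_nt.C.Red13
import Pool.Agent.Lib.MP_ab8df0_nt.B.Glob

/-! The three pure cubic fields. -/

namespace Pool.Agent.Lib.MP_ab8df0_nt.C

open Pool.Agent.Lib.MP_ab8df0_nt.A

open NumberField IsDedekindDomain

variable {F : Type} [Field F] [NumberField F] {α : 𝓞 F}

theorem cubic_of_gen {d : ℤ} (h : Gen α [-d, 0, 0]) : Cubic F d (α : F) := by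
  refine ⟨?_, fun x => ?_, fun a ha => ?_⟩
  · have := h.rootF
    simp only [A.ev_cons, A.ev_nil, List.length_cons, List.length_nil] at this
    push_cast at this
    linear_combination this
  · obtain ⟨l, n, h1, h2, rfl⟩ := h.span x
    obtain ⟨a, b, c, rfl⟩ := List.length_eq_three.1 h1
    refine ⟨(a / n, b / n, c / n), ?_⟩
    simp only [e3, A.ev_cons, A.ev_nil]
    push_cast
    ring
  · obtain ⟨pb, h1, -⟩ := h.exists_pb
    have hn : pb.dim = 3 := by rw [← pb.finrank, h.deg]; rfl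
    have h2 := Fintype.linearIndependent_iff.1 (pb.basis.reindex (finCongr hn)).linearIndependent
      ![a.1, a.2.1, a.2.2] (by
        simpa [Fin.sum_univ_three, pb.coe_basis, h1, Algebra.smul_def, e3] using ha)
    exact Prod.ext (h2 0) (Prod.ext (h2 1) (h2 2))

/-- The generators. -/
def gK2 : Fin 4 → List ℤ := ![[-1], [-1, 1], [0, 1], [1, 1]]

theorem finK2 (h : Gen α K2.fl) {ξ : F} (h0 : ξ ≠ 0)
    (hξ : ∀ v : HeightOneSpectrum (𝓞 F), ((6 : ℕ) : 𝓞 F) ∉ v.asIdeal →
      ∃ k : ℤ, v.valuation F ξ = WithZero.exp (2 * k)) :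
    ∃ (e : Fin 4 → Bool) (u : F), ξ = (∏ i, if e i then A.ev (α : F) (gK2 i) else 1) * u ^ 2 :=
  h.SU (M := 2) (m := K2.m) (r := 2) (ρ := K2.ρ) (D := 108) (dF := 108)
    (bs := [([1], 1, [-1, 3, -3]), ([0, 1], 1, [-2, 0, 0]), ([0, 0, 1], 1, [-4, 0, 0])])
    (K := 10000000000000000000000000000000000000000) (E := 10000000000000000000000000000000000000000) (zs := [⟨-6299605249474365823836053036391141752851, 10911236359717214035600726141898088813259⟩, ⟨-6299605249474365823836053036391141752851, -10911236359717214035600726141898088813259⟩]) (T := 10)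
    (c := ![(71, 49), (89, 16), (109, 103), (41, 5)]) (by decide +kernel)
    ((K2.c2 h).mul (K2.c3 h)) (K2.ra h) h0 hξ

/-- The generators. -/
def gK3 : Fin 5 → List ℤ := ![[-1], [-2, 0, 1], [-1, 1], [1, 1, 1], [0, 1]]

theorem finK3 (h : Gen α K3.fl) {ξ : F} (h0 : ξ ≠ 0)
    (hξ : ∀ v : HeightOneSpectrum (𝓞 F), ((6 : ℕ) : 𝓞 F) ∉ v.asIdeal →
      ∃ k : ℤ, v.valuation F ξ = WithZero.exp (2 * k)) :
    ∃ (e : Fin 5 → Bool) (u : F), ξ = (∏ i, if e i then A.ev (α : F) (gK3 i) else 1) * u ^ 2 :=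
  h.SU (M := 4) (m := K3.m) (r := 2) (ρ := K3.ρ) (D := 243) (dF := 243)
    (bs := [([1], 1, [-1, 3, -3]), ([0, 1], 1, [-3, 0, 0]), ([0, 0, 1], 1, [-9, 0, 0])])
    (K := 10000000000000000000000000000000000000000) (E := 10000000000000000000000000000000000000000) (zs := [⟨-7211247851537041911608191553900547941959, 12490247664834064794131795437632536349931⟩, ⟨-7211247851537041911608191553900547941959, -12490247664834064794131795437632536349931⟩]) (T := 24)
    (c := ![(239, 50), (73, 25), (613, 385), (61, 4), (137, 29)]) (by decide +kernel)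
    ((K3.c2 h).mul (K3.c3 h)) (K3.ra h) h0 hξ

/-- The generators. -/
def gK12 : Fin 4 → List ℤ := ![[-1], [4, 12, -6], [2], [0, 1]]

theorem finK12 (h : Gen α K12.fl) {ξ : F} (h0 : ξ ≠ 0)
    (hξ : ∀ v : HeightOneSpectrum (𝓞 F), ((6 : ℕ) : 𝓞 F) ∉ v.asIdeal →
      ∃ k : ℤ, v.valuation F ξ = WithZero.exp (2 * k)) :
    ∃ (e : Fin 4 → Bool) (u : F), ξ = (∏ i, if e i then A.ev (α : F) (gK12 i) else 1) * u ^ 2 :=
  h.SU (M := 8) (m := K12.m) (r := 3) (ρ := K12.ρ) (D := 3888) (dF := 972)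
    (bs := [([1], 1, [-1, 3, -3]), ([0, 1], 1, [-12, 0, 0]), ([0, 0, 1], 2, [-18, 0, 0])])
    (K := 10000000000000000000000000000000000000000) (E := 10000000000000000000000000000000000000000) (zs := [⟨-11447142425533318678080422119396770089159, 19827032282500941423417970146738761901578⟩, ⟨-11447142425533318678080422119396770089159, -19827032282500941423417970146738761901578⟩]) (T := 19)
    (c := ![(47, 34), (97, 48), (373, 75), (137, 132)]) (by decide +kernel)
    ((K12.c2 h).mul (K12.c3 h)) (K12.ra h) h0 hξ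

theorem cubicK2 (h : Gen α K2.fl) : Cubic F 2 (α : F) := cubic_of_gen h

theorem cubicK3 (h : Gen α K3.fl) : Cubic F 3 (α : F) := cubic_of_gen h

theorem cubicK12 (h : Gen α K12.fl) : Cubic F 12 (α : F) := cubic_of_gen h

theorem suK2 (h : Gen α K2.fl) : SU F 6 [-1, (α : F) - 1, α, α + 1] := fun x h0 hx => by
  convert B.span_of_fin (fun i => A.ev (α : F) (gK2 i)) h0 (finK2 h h0 hx) using 1
  simp [gK2, List.ofFn_succ, add_comm, sub_eq_add_neg]

theorem suK3 (h : Gen α K3.fl) : SU F 6 [-1, (α : F) ^ 2 - 2, α - 1, α ^ 2 + α + 1, α] :=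
  fun x h0 hx => by
  convert B.span_of_fin (fun i => A.ev (α : F) (gK3 i)) h0 (finK3 h h0 hx) using 1
  simp only [gK3, List.ofFn_succ, List.ofFn_zero, Matrix.cons_val_zero, Matrix.cons_val_succ,
    A.ev_cons, A.ev_nil]
  congr 1
  · simp
  congr 1
  · push_cast; ring
  congr 1
  · push_cast; ring
  congr 1
  · push_cast; ring
  · simp

theorem suK12 (h : Gen α K12.fl) : SU F 6 [-1, e3 (α : F) eps12, 2, α] := fun x h0 hx => by
  obtain ⟨e, u, hu⟩ := finK12 h h0 hx
  refine B.span_of_fin ![-1, e3 (α : F) eps12, 2, α] h0 ⟨e, u * if e 1 then 2 else 1, ?_⟩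
  rw [hu, Fin.prod_univ_four, Fin.prod_univ_four]
  cases e 0 <;> cases e 1 <;> cases e 2 <;> cases e 3 <;> simp [gK12, e3, eps12] <;> ring

end Pool.Agent.Lib.MP_ab8df0_nt.C
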