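import Pool.Agent.Lib.MP_ab8df0_nt.C.BB6
import Pool.Agent.Lib.MP_ab8df0_nt.C.Red13
import Pool.Agent.Lib.MP_ab8df0_nt.B.TreeDefs
import Pool.Agent.Lib.MP_ab8df0_nt.Z3

/-! Reduction of the equation with a fifth power and two cubes. -/

namespace Pool.Agent.Lib.MP_ab8df0_nt.C

open WithZero NumberField IsDedekindDomain Pool.Agent.Lib.MP_ab8df0_nt.B

namespace R6

open Z3

/-- the fundamental unit -/
def eu : Z3ˣ := ⟨eps, ⟨1, 1, 1⟩, by ext <;> simp [eps], by ext <;> simp [eps]⟩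

lemma N_eu (n : ℤ) : N ((eu ^ n : Z3ˣ) : Z3) = 1 := by
  induction n using Int.induction_on with
  | zero => exact N_one
  | succ n ih => rw [zpow_add_one, Units.val_mul, N_mul, ih]; rfl
  | pred n ih => rw [zpow_sub_one, Units.val_mul, N_mul, ih]; rfl

lemma unit_pow (u : Z3) (hu : N u = 1) : ∃ k : ℤ, u = ((eu ^ k : Z3ˣ) : Z3) := by
  obtain ⟨t, ht, t1, t2⟩ := exists_root
  set σ := emb t ht with hσ
  set H : ℝ := σ ⟨1, 1, 1⟩ with hH
  have hH' : H = 1 + t + t ^ 2 := by rw [hH, hσ, emb_apply]; simp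
  have H1 : 1 < H := by rw [hH']; nlinarith
  have H2 : H < 3.85 := by rw [hH']; nlinarith
  have pos : 0 < σ u := by
    obtain ⟨h1, h2, -⟩ := emb_adj t ht u
    rw [hu] at h1
    by_contra hc
    have := mul_nonpos_of_nonpos_of_nonneg (not_lt.1 hc) h2
    rw [hσ] at this; rw [h1] at this; norm_num at this
  have hz : ∀ n : ℤ, σ ((eu⁻¹ ^ n : Z3ˣ) : Z3) = H ^ n := fun n => by
    have := congrArg Units.val (map_zpow (Units.map σ.toMonoidHom) eu⁻¹ n)
    rw [Units.val_zpow_eq_zpow_val] at this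
    exact this
  obtain ⟨n, h1, h2⟩ := exists_mem_Ico_zpow pos H1
  obtain ⟨w, hw⟩ : ∃ w : Z3, w = u * ((eu ^ n : Z3ˣ) : Z3) := ⟨_, rfl⟩
  have huw : u = w * ((eu⁻¹ ^ n : Z3ˣ) : Z3) := by
    rw [hw, mul_assoc, inv_zpow, Units.mul_inv, mul_one]
  have hNw : N w = 1 := by rw [hw, N_mul, hu, N_eu, one_mul]
  have hs : σ u = σ w * H ^ n := by rw [huw, map_mul, hz n]
  have hp : 0 < H ^ n := zpow_pos (by linarith) n
  rw [hs] at h1 h2
  rw [zpow_add_one₀ (by linarith), mul_comm _ H] at h2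
  have r1 : 1 ≤ σ w := (le_mul_iff_one_le_left hp).1 h1
  have r2 : σ w < H := lt_of_mul_lt_mul_right h2 hp.le
  obtain ⟨q1, q2, q3⟩ := emb_adj t ht w
  rw [hNw] at q1
  rw [← hσ] at q1 q2 q3
  have hb : (w.a : ℝ) ^ 2 + t ^ 2 * w.b ^ 2 + 2 * t * w.c ^ 2 < 5.7 := by
    push_cast at q1
    have : σ (adj w) ≤ 1 := by nlinarith
    nlinarith
  have t3 : 1.58 < t ^ 2 := by nlinarith
  have s1 := sq_nonneg (w.a : ℝ); have s2 := sq_nonneg (w.b : ℝ); have s3 := sq_nonneg (w.c : ℝ)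
  have a1 : w.a ^ 2 < 9 := by
    have : (w.a : ℝ) ^ 2 < 9 := by nlinarith
    exact_mod_cast this
  have b1 : w.b ^ 2 < 4 := by
    have : (w.b : ℝ) ^ 2 < 4 := by nlinarith
    exact_mod_cast this
  have c1 : w.c ^ 2 < 4 := by
    have : (w.c : ℝ) ^ 2 < 4 := by nlinarith
    exact_mod_cast this
  rw [inv_zpow'] at huw
  rcases small_units w hNw a1 b1 c1 with h | h | h
  · exact ⟨-n, by rw [huw, h, one_mul]⟩
  · exact ⟨1 + -n, by rw [huw, h, zpow_add, zpow_one]; rfl⟩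
  · exact ⟨-1 + -n, by rw [huw, h, zpow_add, zpow_neg_one]; rfl⟩

lemma unit_five (u : Z3ˣ) : ∃ (v : Z3) (r : ℕ), r < 5 ∧ (u : Z3) = eps ^ r * v ^ 5 := by
  have key : ∀ w : Z3, N w = 1 → ∃ (v : Z3) (r : ℕ), r < 5 ∧ w = eps ^ r * v ^ 5 := fun w hw => by
    obtain ⟨k, rfl⟩ := unit_pow w hw
    refine ⟨((eu ^ (k / 5) : Z3ˣ) : Z3), (k % 5).toNat, by omega, ?_⟩
    rw [show eps = (eu : Z3) from rfl, ← Units.val_pow_eq_pow_val, ← Units.val_pow_eq_pow_val,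
      ← Units.val_mul, ← zpow_natCast, ← zpow_natCast, ← zpow_mul, ← zpow_add]
    congr 2
    omega
  have h1 : N (u : Z3) * N ((u⁻¹ : Z3ˣ) : Z3) = 1 := by rw [← N_mul, Units.mul_inv, N_one]
  rcases Int.eq_one_or_neg_one_of_mul_eq_one h1 with h | h
  · exact key _ h
  · obtain ⟨v, r, hr, e⟩ := key (-u) (by rw [N_neg, h, neg_neg])
    exact ⟨-v, r, hr, by linear_combination -e⟩

/-- coordinates -/
def io (a : Z3) : Q3 := (a.a, a.b, a.c)

lemma io_mul (a b : Z3) : io (a * b) = m3 2 (io a) (io b) := by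
  simp only [io, m3, mul_a, mul_b, mul_c]
  push_cast
  refine Prod.ext rfl (Prod.ext ?_ rfl)
  ring

lemma io_five (a : Z3) : io (a ^ 5) = p5 (io a) := by
  rw [show a ^ 5 = a * (a * a * (a * a)) by ring, io_mul, io_mul, io_mul]
  rfl

lemma io_eps : io eps = eps2 := by simp [io, eps, eps2]

lemma fac {x y z : ℤ} (hc : IsCoprime (x ^ 5) (3 * z ^ 2)) (h : x ^ 5 + 2 * y ^ 3 + z ^ 3 = 0) :
    ∃ (r : ℕ) (a : Q3), r < 5 ∧ m3 2 (io (eps ^ r)) (p5 a) = (-(z : ℚ), -(y : ℚ), 0) := by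
  obtain ⟨u, v, huv⟩ := hc
  have hcop : IsCoprime (⟨-z, -y, 0⟩ : Z3) (adj ⟨-z, -y, 0⟩) := by
    refine ⟨⟨u, 0, 0⟩ * adj ⟨-z, -y, 0⟩ - ⟨v, 0, 0⟩ * ⟨2 * z, -y, 0⟩, ⟨v, 0, 0⟩, ?_⟩
    ext <;> simp [adj]
    · linear_combination huv - u * h
    · ring
    · ring
  obtain ⟨d, e, he⟩ := exists_associated_pow_of_mul_eq_pow' (c := ⟨x, 0, 0⟩) (k := 5) hcop
    (by rw [mul_adj]; ext <;> simp [N, pow_succ]; linear_combination -h)
  obtain ⟨w, r, hr, hw⟩ := unit_five e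
  refine ⟨r, io (d * w), hr, ?_⟩
  rw [← io_five, ← io_mul, show eps ^ r * (d * w) ^ 5 = d ^ 5 * e by rw [hw]; ring, he]
  simp [io]

lemma root5 {x n : ℤ} (h : x ^ 5 = n ^ 5) : x = n := (Odd.pow_inj (by decide)).1 h

end R6

open R13 R6

/- x, z odd, 3 does not divide x, so -(z + y t) is a unit times a fifth power. -/
theorem E6_of (h0 : BB60) (h1 : BB61) (h2 : BB62) (h3 : BB63) (h4 : BB64) (x y z : ℤ)
    (hg : Int.gcd (Int.gcd x y) z = 1) (h : x ^ 5 + 2 * y ^ 3 + z ^ 3 = 0) :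
    (x, y, z) ∈ ({(1, -1, 1), (1, 0, -1), (-1, 0, 1), (-1, 1, -1)} : Set (ℤ × ℤ × ℤ)) := by
  have hyz : IsCoprime y z := by
    rw [Int.isCoprime_iff_gcd_eq_one]
    by_contra hc
    obtain ⟨p, hp, hd⟩ := Nat.exists_prime_and_dvd hc
    have hy : (p : ℤ) ∣ y := (Int.natCast_dvd_natCast.2 hd).trans (Int.gcd_dvd_left y z)
    have hz : (p : ℤ) ∣ z := (Int.natCast_dvd_natCast.2 hd).trans (Int.gcd_dvd_right y z)
    have hx : (p : ℤ) ∣ x := by
      refine (Nat.prime_iff_prime_int.1 hp).dvd_of_dvd_pow (n := 5) ?_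
      have : x ^ 5 = -(2 * y ^ 2 * y + z ^ 2 * z) := by linear_combination h
      rw [this]
      exact ((hy.mul_left _).add (hz.mul_left _)).neg_right
    have a1 : (p : ℤ) ∣ (Int.gcd x y : ℤ) := Int.natCast_dvd_natCast.2 (Int.dvd_gcd hx hy)
    have a2 : p ∣ Int.gcd (Int.gcd x y) z := Int.dvd_gcd a1 hz
    rw [hg] at a2
    exact hp.one_lt.ne' (Nat.dvd_one.1 a2)
  have hz2 : ¬ 2 ∣ z := by
    rintro ⟨z, rfl⟩
    obtain ⟨x, rfl⟩ : (2 : ℤ) ∣ x :=
      Int.prime_two.dvd_of_dvd_pow (n := 5) ⟨-(y ^ 3 + 4 * z ^ 3), by linear_combination h⟩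
    exact not_both hyz (by norm_num) (Int.prime_two.dvd_of_dvd_pow (n := 3)
      ⟨-(8 * x ^ 5 + 2 * z ^ 3), by linarith⟩) (dvd_mul_right 2 z)
  have hz : Odd z := Int.not_even_iff_odd.1 fun q => hz2 q.two_dvd
  have hx3 : ¬ 3 ∣ x := by
    rintro ⟨x, rfl⟩
    obtain ⟨a, ha⟩ : ∃ a, z = y + 3 * a := by
      have a3 : (3 : ℤ) ∣ (z - y) ^ 3 :=
        ⟨-(81 * x ^ 5) - y ^ 3 - z ^ 2 * y + z * y ^ 2, by linear_combination h⟩
      obtain ⟨a, ha⟩ := Int.prime_three.dvd_of_dvd_pow a3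
      exact ⟨a, by linear_combination ha⟩
    have hy : (3 : ℤ) ∣ y := by
      refine Int.prime_three.dvd_of_dvd_pow (n := 3)
        ⟨-(27 * x ^ 5 + y ^ 2 * a + 3 * y * a ^ 2 + 3 * a ^ 3), ?_⟩
      subst ha
      linarith
    exact not_both hyz (by norm_num) hy (ha ▸ hy.add (dvd_mul_right 3 a))
  have hxz : IsCoprime (x ^ 5) z := by
    have a1 : IsCoprime (2 * y ^ 3) z := (cop_prime Int.prime_two hz2).symm.mul_left hyz.pow_left
    rw [show x ^ 5 = -(2 * y ^ 3) + z * -z ^ 2 by linear_combination h]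
    exact a1.neg_left.add_mul_left_left _
  have n3 : ∀ n : ℤ, x ^ 5 = 3 * n → False := fun n q =>
    hx3 (Int.prime_three.dvd_of_dvd_pow ⟨n, q⟩)
  obtain ⟨r, a, hr, ha⟩ := fac ((cop_prime Int.prime_three hx3).pow_left.mul_right hxz.pow_right) h
  simp only [Set.mem_insert_iff, Set.mem_singleton_iff, Prod.mk.injEq]
  interval_cases r
  · have hy := h0 x y z hz h ⟨a, by simpa [io] using ha⟩
    rcases ratio (a := 1) (b := 0) hyz (by norm_num) (by linear_combination hy) with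
      ⟨rfl, rfl⟩ | ⟨rfl, rfl⟩
    · obtain rfl := root5 (x := x) (n := 1) (by linear_combination h)
      simp
    · obtain rfl := root5 (x := x) (n := -1) (by linear_combination h)
      simp
  · rw [pow_one, io_eps] at ha
    rcases h1 x y z hz h ⟨a, ha⟩ with hy | hy
    · rcases ratio (a := 1) (b := 1) hyz (by norm_num) (by linear_combination hy) with
        ⟨rfl, rfl⟩ | ⟨rfl, rfl⟩
      · obtain rfl := root5 (x := x) (n := -1) (by linear_combination h)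
        simp
      · obtain rfl := root5 (x := x) (n := 1) (by linear_combination h)
        simp
    · rcases ratio (a := 5) (b := 4) hyz (by norm_num) hy with ⟨rfl, rfl⟩ | ⟨rfl, rfl⟩
      · exact (n3 (-1) (by linear_combination h)).elim
      · exact (n3 1 (by linear_combination h)).elim
  · rw [pow_two, io_mul, io_eps] at ha
    exact (h2 x y z hz h ⟨a, ha⟩).elim
  · rw [pow_three, io_mul, io_mul, io_eps] at ha
    have hy := h3 x y z hz h ⟨a, ha⟩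
    rcases ratio (a := 1) (b := -1) hyz (by norm_num) (by linear_combination hy) with
      ⟨rfl, rfl⟩ | ⟨rfl, rfl⟩
    · exact (n3 1 (by linear_combination h)).elim
    · exact (n3 (-1) (by linear_combination h)).elim
  · rw [show Z3.eps ^ 4 = Z3.eps * Z3.eps * (Z3.eps * Z3.eps) by ring, io_mul, io_mul,
      io_eps] at ha
    exact (h4 x y z hz h ⟨a, ha⟩).elim

/- X = x / (be * al ^ 3) -/
theorem X_exists {F : Type*} [Field F] [CharZero F] {c : Q3} {t be : F} (ht : t ^ 3 = 2)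
    (hb : 4 * be ^ 5 = e3 t c ^ 3) {x y z : ℤ} (hz : Odd z) (h : x ^ 5 + 2 * y ^ 3 + z ^ 3 = 0)
    (hf : ∃ a : Q3, m3 2 c (p5 a) = (-(z : ℚ), -(y : ℚ), 0)) :
    1 + (y : F) / z * t ≠ 0 ∧ 1 - (y : F) / z * t ≠ 0 ∧
      ∃ X : F, X ^ 5 = 1 + 3 * ((1 - (y : F) / z * t) / (1 + (y : F) / z * t)) ^ 2 := by
  obtain ⟨a, ha⟩ := hf
  have ht' : t ^ 3 = ((2 : ℤ) : F) := by exact_mod_cast ht
  have hF : (x : F) ^ 5 + 2 * y ^ 3 + z ^ 3 = 0 := by exact_mod_cast h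
  have nz : ∀ n : ℤ, (z : F) ^ 3 ≠ 2 * n := fun n q => by
    have q2 : z ^ 3 = 2 * n := by exact_mod_cast q
    exact Int.not_even_iff_odd.2 hz (even_iff_two_dvd.2 (Int.prime_two.dvd_of_dvd_pow ⟨n, q2⟩))
  have z0 : (z : F) ≠ 0 := fun q => nz 0 (by rw [q]; simp)
  have w1 : (z : F) + y * t ≠ 0 := fun q => nz (-y ^ 3) (by
    push_cast
    linear_combination ((z : F) ^ 2 - z * (y * t) + (y * t) ^ 2) * q - (y : F) ^ 3 * ht)
  have w2 : (z : F) - y * t ≠ 0 := fun q => nz (y ^ 3) (by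
    push_cast
    linear_combination ((z : F) ^ 2 + z * (y * t) + (y * t) ^ 2) * q + (y : F) ^ 3 * ht)
  have e1 : 1 + (y : F) / z * t = (z + y * t) / z := by field_simp
  have e2 : 1 - (y : F) / z * t = (z - y * t) / z := by field_simp
  have hw : -((z : F) + y * t) = e3 t c * e3 t a ^ 5 := by
    have b1 := e3_m3 ht' c (p5 a)
    have b2 := e3_m3 ht' a (p4 2 a)
    have b3 := e3_p4 ht' a
    push_cast at b1 b2 b3
    rw [ha, p5, b2, b3] at b1
    simp only [e3] at b1 ⊢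
    push_cast at b1
    linear_combination b1
  have hca : e3 t c * e3 t a ^ 5 ≠ 0 := hw ▸ neg_ne_zero.2 w1
  have hc0 : e3 t c ≠ 0 := left_ne_zero_of_mul hca
  have ha0 : e3 t a ≠ 0 := fun q => hca (by rw [q]; ring)
  have hb0 : be ≠ 0 := fun q => pow_ne_zero 3 hc0 (by rw [← hb, q]; ring)
  refine ⟨e1 ▸ div_ne_zero w1 z0, e2 ▸ div_ne_zero w2 z0, x / (be * e3 t a ^ 3), ?_⟩
  have hww : (x : F) ^ 5 = -((z : F) + y * t) * (z ^ 2 - z * (y * t) + (y * t) ^ 2) := by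
    linear_combination hF + (y : F) ^ 3 * ht
  have b4 : 1 + 3 * ((((z : F) - y * t) / z) / ((z + y * t) / z)) ^ 2 =
      4 * x ^ 5 / (-((z : F) + y * t)) ^ 3 := by
    rw [hww]; field_simp; ring
  rw [e1, e2, b4, hw, mul_pow, ← hb]
  field_simp

theorem delta_even {F : Type} [Field F] [NumberField F] {X G : F} (hG : G ≠ 0)
    (h : X ^ 5 = 1 + 3 * G ^ 2) (v : HeightOneSpectrum (𝓞 F)) (hv : ((30 : ℕ) : 𝓞 F) ∉ v.asIdeal) :
    ∃ k : ℤ, v.valuation F (X - 1) = exp (2 * k) := by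
  have h30 : v.valuation F (30 : F) = 1 := by
    have := (v.valuation_eq_one_iff_notMem (K := F)).2 hv
    rwa [map_natCast, Nat.cast_ofNat] at this
  generalize v.valuation F = w at h30 ⊢
  have un : ∀ a b : ℤ, a * b = 30 → w (a : F) = exp (-0) := fun a b q => by
    refine exact_of_not (P.int w a) fun q2 => ?_
    have q3 := q2.mul0 (P.int w b)
    rw [← Int.cast_mul, q] at q3
    exact not_P_of_exact (r := 0) (by simpa using h30) q3
  have h3 : w (3 : F) = exp (-0) := by exact_mod_cast un 3 10 rfl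
  have h5 : w (5 : F) = exp (-0) := by exact_mod_cast un 5 6 rfl
  obtain ⟨g, hg⟩ := exists_exact w hG
  have hR := exact_mul h3 (exact_pow hg 2)
  have hX : X - 1 ≠ 0 := fun q => ne_of_exact hR (by
    rw [sub_eq_zero.1 q] at h; linear_combination -h)
  obtain ⟨a, ha⟩ := exists_exact w hX
  rcases lt_trichotomy a 0 with q | rfl | q
  · have b1 := exact_add ha ((P.one w).mono (by omega))
    rw [sub_add_cancel] at b1
    have b2 := exact_add (exact_pow b1 5) ((P.one w).neg.mono (by push_cast; omega))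
    rw [show X ^ 5 + -1 = 3 * G ^ 2 by linear_combination h, hR, exp_inj] at b2
    push_cast at b2
    exact ⟨-(a / 2), by rw [ha]; congr 1; omega⟩
  · exact ⟨0, by simpa using ha⟩
  · have b0 : P w 1 (X - 1) := (P.of_eq ha).mono (by omega)
    have b1 : P w 0 X := ((b0.mono (by omega)).add (P.one w)).congr (by ring)
    have b2 : P w 0 (X * (X * (X + (2 : ℤ)) + (3 : ℤ)) + (4 : ℤ)) :=
      (b1.mul0 ((b1.mul0 (b1.add (P.int w 2))).add (P.int w 3))).add (P.int w 4)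
    have b3 := exact_mul ha (exact_add h5 (b0.mul0 b2))
    rw [show (X - 1) * (5 + (X - 1) * (X * (X * (X + (2 : ℤ)) + (3 : ℤ)) + (4 : ℤ))) = 3 * G ^ 2 by
      push_cast; linear_combination h, hR, exp_inj] at b3
    push_cast at b3
    exact ⟨-g, by rw [ha]; congr 1; omega⟩

theorem delta_pos {F : Type*} [Field F] {X G : F} (hG : G ≠ 0) (h : X ^ 5 = 1 + 3 * G ^ 2)
    (φ : F →+* ℝ) : 0 < φ (X - 1) := by
  have h1 := congrArg φ h
  rw [map_pow, map_add, map_one, map_mul, map_pow, map_ofNat] at h1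
  have h2 : 0 < φ G ^ 2 := sq_pos_of_ne_zero ((map_ne_zero φ).2 hG)
  rw [map_sub, map_one, sub_pos]
  exact (Odd.pow_lt_pow (n := 5) (by decide)).1 (by rw [h1, one_pow]; linarith)

/- here `dl` is a constant in the class of X - 1 and D = 3 dl r^2 -/
theorem on6 {F : Type*} [Field F] [CharZero F] {X G dl r D a b : F} (hG : G ≠ 0)
    (h : X ^ 5 = 1 + 3 * G ^ 2) (hs : IsSquare ((X - 1) * dl)) (hD : D = 3 * dl * r ^ 2)
    (ha : a = 10 * D) (hb : b = 5 * D ^ 2) :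
    ∃ Y : F, On a b (5 * D * ((X + 1) / (X - 1)) ^ 2) Y := by
  obtain ⟨s, hs⟩ := hs
  have hX : X - 1 ≠ 0 := fun q => mul_ne_zero (three_ne_zero' F) (pow_ne_zero 2 hG) (by
    rw [sub_eq_zero.1 q] at h; linear_combination -h)
  refine ⟨60 * D * (X + 1) * G * r * s / (X - 1) ^ 4, ?_⟩
  have e : 5 * D * ((X + 1) / (X - 1)) ^ 2 * ((5 * D * ((X + 1) / (X - 1)) ^ 2) ^ 2 +
      10 * D * (5 * D * ((X + 1) / (X - 1)) ^ 2) + 5 * D ^ 2) =
      400 * D ^ 3 * (X + 1) ^ 2 * (X - 1) * (X ^ 5 - 1) / ((X - 1) ^ 4) ^ 2 := by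
    field_simp; ring
  rw [On, ha, hb, e, div_pow]
  congr 1
  linear_combination (-3600 * D ^ 2 * (X + 1) ^ 2 * G ^ 2 * r ^ 2) * hs -
    1200 * D ^ 2 * (X + 1) ^ 2 * (X - 1) * G ^ 2 * hD - 400 * D ^ 3 * (X + 1) ^ 2 * (X - 1) * h

end Pool.Agent.Lib.MP_ab8df0_nt.C
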