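import Pool.Agent.Lib.MP_ab8df0_nt.C.BB
import Pool.Agent.Lib.MP_ab8df0_nt.E5

/-! Reduction of the equations of signature (5,4,2). -/

namespace Pool.Agent.Lib.MP_ab8df0_nt.C

open QuadraticAlgebra

namespace Red7

lemma units5 : ∀ (n : ℕ) (z : R2), z.re.natAbs + z.im.natAbs ≤ n → z.norm ^ 2 = 1 →
    ∃ v : R2, z = v ^ 5 ∨ (z = ⟨1, 1⟩ * v ^ 5 ∨ z = ⟨1, 1⟩ ^ 2 * v ^ 5) ∨
      (z = ⟨-1, 1⟩ * v ^ 5 ∨ z = ⟨-1, 1⟩ ^ 2 * v ^ 5) := by
  intro n
  have hp : (⟨1, 1⟩ : R2) * ⟨-1, 1⟩ = 1 := by decide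
  have up : ∀ e f z : R2, e * f = 1 → (∃ v : R2, z = v ^ 5 ∨ (z = e * v ^ 5 ∨ z = e ^ 2 * v ^ 5) ∨
      (z = f * v ^ 5 ∨ z = f ^ 2 * v ^ 5)) →
      ∃ v : R2, e * z = v ^ 5 ∨ (e * z = e * v ^ 5 ∨ e * z = e ^ 2 * v ^ 5) ∨
        (e * z = f * v ^ 5 ∨ e * z = f ^ 2 * v ^ 5) := by
    rintro e f z h ⟨v, rfl | (rfl | rfl) | (rfl | rfl)⟩
    · exact ⟨v, Or.inr (Or.inl (Or.inl rfl))⟩
    · exact ⟨v, Or.inr (Or.inl (Or.inr (by ring)))⟩
    · exact ⟨e * v, Or.inr (Or.inr (Or.inr (by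
        linear_combination (-e ^ 3 * v ^ 5 * (e * f + 1)) * h)))⟩
    · exact ⟨v, Or.inl (by linear_combination v ^ 5 * h)⟩
    · exact ⟨v, Or.inr (Or.inr (Or.inl (by linear_combination f * v ^ 5 * h)))⟩
  induction n with
  | zero =>
    rintro ⟨x, y⟩ h h0
    obtain rfl : x = 0 := by simp only at h; omega
    obtain rfl : y = 0 := by simp only at h; omega
    simp [norm_def] at h0
  | succ n ih =>
    rintro ⟨x, y⟩ h h0
    simp only [norm_def] at h h0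
    have h1 : x * x - 2 * (y * y) = 1 ∨ x * x - 2 * (y * y) = -1 := by
      rcases sq_eq_one_iff.1 h0 with h | h
      · left; linarith
      · right; linarith
    rcases eq_or_ne y 0 with rfl | hy
    · have : x = 1 ∨ x = -1 :=
        mul_self_eq_one_iff.1 (by rcases h1 with h | h <;> nlinarith [mul_self_nonneg x])
      rcases this with rfl | rfl
      · exact ⟨1, Or.inl (by decide)⟩
      · exact ⟨-1, Or.inl (by decide)⟩
    have h2 : |y| ≤ |x| ∧ |x| < 2 * |y| := by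
      have a1 := abs_mul_abs_self x
      have a2 := abs_mul_abs_self y
      have a3 : 1 ≤ |y| := Int.one_le_abs hy
      have a4 := abs_nonneg x
      constructor <;> by_contra hc <;> push Not at hc <;> rcases h1 with h | h <;> nlinarith
    rw [Int.abs_eq_natAbs, Int.abs_eq_natAbs] at h2
    by_cases hs : (0 < x ∧ 0 < y) ∨ (x < 0 ∧ y < 0)
    · have := up _ _ _ hp (ih ⟨2 * y - x, x - y⟩ (by simp only; omega)
        (by simp only [norm_def]; linear_combination h0))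
      rwa [show (⟨1, 1⟩ : R2) * ⟨2 * y - x, x - y⟩ = ⟨x, y⟩ by ext <;> simp <;> ring] at this
    · obtain ⟨v, hv⟩ := ih ⟨x + 2 * y, x + y⟩ (by simp only; omega)
        (by simp only [norm_def]; linear_combination h0)
      obtain ⟨w, hw⟩ := up _ _ _ (by rw [mul_comm]; exact hp) ⟨v, hv.imp_right Or.symm⟩
      rw [show (⟨-1, 1⟩ : R2) * ⟨x + 2 * y, x + y⟩ = ⟨x, y⟩ by ext <;> simp <;> ring] at hw
      exact ⟨w, hw.imp_right Or.symm⟩

lemma fifth2 (X y z : ℤ) (hc : IsCoprime X (2 * y)) (h : y ^ 4 - 2 * z ^ 2 = X ^ 5) :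
    ∃ a b : ℤ, (y ^ 2 = re5 2 a b ∧ z = im5 2 a b) ∨
      (∃ σ : ℤ, (σ = 1 ∨ σ = -1) ∧ y ^ 2 = re5 2 a b + 2 * im5 2 a b ∧
        z = σ * (re5 2 a b + im5 2 a b)) ∨
      (∃ σ : ℤ, y ^ 2 = 3 * re5 2 a b + 4 * im5 2 a b ∧
        z = σ * (2 * re5 2 a b + 3 * im5 2 a b)) := by
  obtain ⟨u, v, huv⟩ : IsCoprime (X ^ 5) (2 * y ^ 2) :=
    (hc.of_mul_right_left.mul_right hc.of_mul_right_right.pow_right).pow_left
  have hcop : IsCoprime (⟨y ^ 2, z⟩ : R2) ⟨y ^ 2, -z⟩ := by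
    refine ⟨⟨u, 0⟩ * ⟨y ^ 2, -z⟩ + ⟨v, 0⟩, ⟨v, 0⟩, ?_⟩
    ext <;> simp
    · linear_combination huv + u * h
    · ring
  obtain ⟨d, e, he⟩ := exists_associated_pow_of_mul_eq_pow' (c := ⟨X, 0⟩) (k := 5) hcop
    (by ext <;> simp [pow_succ] <;> linarith)
  have hn : (e : R2).norm ^ 2 = 1 := by
    rcases Int.isUnit_iff.1 (isUnit_iff_norm_isUnit.1 e.isUnit) with h | h <;> rw [h] <;> norm_num
  obtain ⟨w, hw⟩ := units5 _ e le_rfl hn
  obtain ⟨g, hg⟩ : ∃ g : R2, (⟨y ^ 2, z⟩ : R2) = g ^ 5 ∨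
      ((⟨y ^ 2, z⟩ : R2) = ⟨1, 1⟩ * g ^ 5 ∨ (⟨y ^ 2, z⟩ : R2) = ⟨1, 1⟩ ^ 2 * g ^ 5) ∨
      ((⟨y ^ 2, z⟩ : R2) = ⟨-1, 1⟩ * g ^ 5 ∨ (⟨y ^ 2, z⟩ : R2) = ⟨-1, 1⟩ ^ 2 * g ^ 5) := by
    refine ⟨d * w, ?_⟩
    rw [← he]
    rcases hw with hw | (hw | hw) | (hw | hw) <;> rw [hw]
    · exact Or.inl (by ring)
    · exact Or.inr (Or.inl (Or.inl (by ring)))
    · exact Or.inr (Or.inl (Or.inr (by ring)))
    · exact Or.inr (Or.inr (Or.inl (by ring)))
    · exact Or.inr (Or.inr (Or.inr (by ring)))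
  obtain ⟨a, b⟩ := g
  have p5 : (⟨a, b⟩ : R2) ^ 5 = ⟨re5 2 a b, im5 2 a b⟩ := by
    ext <;> simp only [pow_succ, pow_zero, one_mul, re_mul, im_mul, re5, im5] <;> ring
  rw [p5] at hg
  have r1 : re5 2 (-a) b = -re5 2 a b := by simp only [re5]; ring
  have r2 : im5 2 (-a) b = im5 2 a b := by simp only [im5]; ring
  have r3 : re5 2 a (-b) = re5 2 a b := by simp only [re5]; ring
  have r4 : im5 2 a (-b) = -im5 2 a b := by simp only [im5]; ring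
  rcases hg with hg | (hg | hg) | (hg | hg) <;> have e1 := congrArg re hg <;>
    have e2 := congrArg im hg <;> simp only [pow_two (⟨_, _⟩ : R2), re_mul, im_mul] at e1 e2
  · exact ⟨a, b, Or.inl ⟨e1, e2⟩⟩
  · exact ⟨a, b, Or.inr (Or.inl ⟨1, Or.inl rfl, by linarith, by linarith⟩)⟩
  · exact ⟨a, b, Or.inr (Or.inr ⟨1, by linarith, by linarith⟩)⟩
  · exact ⟨-a, b, Or.inr (Or.inl ⟨-1, Or.inr rfl, by linarith, by linarith⟩)⟩
  · exact ⟨a, -b, Or.inr (Or.inr ⟨-1, by linarith, by linarith⟩)⟩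

lemma s4 (r : ℤ) (h : ¬ 2 ∣ r) : r ^ 4 % 8 = 1 := by
  rw [show r ^ 4 = (r ^ 2) ^ 2 by ring]
  exact sq8 _ fun h' => h (Int.prime_two.dvd_of_dvd_pow h')

lemma cop20 (A B r s k : ℤ) (hrs : IsCoprime r s) (h2 : ¬ 2 ∣ r) (h5 : ¬ 5 ∣ r)
    (h : A * B = 2 ^ 2 * 5 ^ 1 * s ^ 4) (hs : A + B = r ^ 2 + k * (10 * s ^ 2)) :
    IsCoprime A B := by
  have c1 : IsCoprime (r ^ 2) (10 * s ^ 2) := by
    rw [show (10 : ℤ) = 2 * 5 by norm_num]
    exact (((Int.prime_two.coprime_iff_not_dvd.2 h2).symm.mul_right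
      (prime5.coprime_iff_not_dvd.2 h5).symm).mul_right hrs.pow_right).pow_left
  have c2 : IsCoprime (A + B) (10 * s ^ 2) := hs ▸ c1.add_mul_right_left k
  have c3 : IsCoprime (A + B) A := (c2.pow_right (n := 2)).of_isCoprime_of_dvd_right
    ⟨5 * B, by linear_combination (-5) * h⟩
  have c4 := c3.symm.add_mul_left_right (-1)
  rwa [show A + B + A * -1 = B by ring] at c4

lemma no45 (r p q : ℤ) (k : ℤ) (h2 : ¬ 2 ∣ r) (hk : k = 20 ∨ k = -10) :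
    r ^ 2 ≠ 4 * p ^ 4 + k * (p * q) ^ 2 + 5 * q ^ 4 := by
  intro h
  have g := congrArg (Int.cast : ℤ → ZMod 8) h
  push_cast at g
  have g2 : (4 : ZMod 8) * r ≠ 0 := fun g => h2 (by
    have := (dvd_iff 8 (4 * r)).1 (by push_cast; exact g)
    omega)
  revert g g2
  generalize (r : ZMod 8) = r; generalize (p : ZMod 8) = p; generalize (q : ZMod 8) = q
  rcases hk with rfl | rfl <;> push_cast <;> revert r p q <;> decide +kernel

lemma neg4 (r p w : ℤ) (h2 : ¬ 2 ∣ r) : r ^ 2 ≠ -p ^ 4 + 4 * w := by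
  intro h
  have e := sq8 r h2
  by_cases hp : 2 ∣ p
  · obtain ⟨p, rfl⟩ := hp
    rw [mul_pow] at h; omega
  · have := s4 p hp; omega

lemma quartic20 : ∀ (k : ℕ) (u v w : ℤ), v.natAbs ≤ k → IsCoprime u v → ¬ 2 ∣ u →
    w ^ 2 = u ^ 4 + 20 * u ^ 2 * v ^ 2 + 20 * v ^ 4 → v = 0 := by
  intro k
  induction k with
  | zero => intro u v w h _ _ _; omega
  | succ k ih =>
  intro u v w hk huv h2 h
  have h5 : ¬ 5 ∣ u := by
    rintro ⟨u, rfl⟩
    obtain ⟨w, rfl⟩ : 5 ∣ w := prime5.dvd_of_dvd_pow (n := 2)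
      ⟨125 * u ^ 4 + 100 * u ^ 2 * v ^ 2 + 4 * v ^ 4, by rw [h]; ring⟩
    have : (5 : ℤ) ∣ v := prime5.dvd_of_dvd_pow (n := 4)
      ⟨v ^ 4 + 25 * u ^ 4 + 20 * u ^ 2 * v ^ 2 - w ^ 2, by linarith⟩
    exact prime5.not_isUnit (huv.isUnit_of_dvd' ⟨u, rfl⟩ this)
  have e1 := s4 u h2
  have e2 := sq8 u h2
  have hw : ¬ 2 ∣ w := by
    rintro ⟨w, rfl⟩
    rw [mul_pow, mul_assoc] at h; omega
  obtain ⟨A, hA⟩ : 2 ∣ u ^ 2 + 10 * v ^ 2 - w := by omega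
  obtain ⟨B, hB⟩ : ∃ B, B = A + w := ⟨_, rfl⟩
  have hsum : A + B = u ^ 2 + 1 * (10 * v ^ 2) := by linarith
  have hAB : A * B = 2 ^ 2 * 5 ^ 1 * v ^ 4 := by
    have : 2 * A * (2 * A + 2 * w) = 80 * v ^ 4 := by rw [← hA]; linear_combination -h
    rw [hB]; linarith
  obtain ⟨m, n, σ, hσ, ht, hmn, hcase⟩ :=
    split2 2 5 2 1 Int.prime_two prime5 _ _ _ (cop20 A B u v 1 huv h2 h5 hAB hsum) hAB
  have fin : ∀ m n : ℤ, v ^ 2 = (m * n) ^ 2 → IsCoprime m n →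
      u ^ 2 = m ^ 4 - 10 * (m * n) ^ 2 + 20 * n ^ 4 → v = 0 := by
    intro m n ht hmn hr
    have m2 : ¬ 2 ∣ m := by
      rintro ⟨m, rfl⟩
      rw [mul_pow] at hr; omega
    have m5 : ¬ 5 ∣ m := fun ⟨t, ht⟩ => h5 (prime5.dvd_of_dvd_pow (n := 2)
      ⟨125 * t ^ 4 - 2 * (m * n) ^ 2 + 4 * n ^ 4, by rw [hr, ht]; ring⟩)
    have e3 := sq8 m m2
    have e4 := s4 m m2
    obtain ⟨n, rfl⟩ : 2 ∣ n := by
      by_contra hn
      have e5 := s4 n hn
      have e6 := sq8 (m * n) fun h => (Int.prime_two.dvd_or_dvd h).elim m2 hn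
      omega
    obtain ⟨C, hC⟩ : 2 ∣ m ^ 2 - 20 * n ^ 2 - u := by omega
    obtain ⟨D, hD⟩ : ∃ D, D = C + u := ⟨_, rfl⟩
    have hsum : C + D = m ^ 2 + (-2) * (10 * n ^ 2) := by linarith
    have hCD : C * D = 2 ^ 2 * 5 ^ 1 * n ^ 4 := by
      have : 2 * C * (2 * C + 2 * u) = 80 * n ^ 4 := by rw [← hC]; linear_combination -hr
      rw [hD]; linarith
    obtain ⟨p, q, τ, hτ, hu, hpq, hcase⟩ := split2 2 5 2 1 Int.prime_two prime5 _ _ _
      (cop20 C D m n (-2) hmn.of_mul_right_right m2 m5 hCD hsum) hCD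
    have fin2 : ∀ p q : ℤ, n ^ 2 = (p * q) ^ 2 → IsCoprime p q →
        m ^ 2 = p ^ 4 + 20 * p ^ 2 * q ^ 2 + 20 * q ^ 4 → v = 0 := by
      intro p q hu hpq hn
      have p2 : ¬ 2 ∣ p := by
        rintro ⟨p, rfl⟩
        rw [mul_pow, mul_assoc] at hn; omega
      have e5 : v ^ 2 = (2 * q * (p * m)) ^ 2 := by
        rw [ht]; linear_combination 4 * m ^ 2 * hu
      have e6 : v.natAbs = 2 * q.natAbs * (p * m).natAbs := by
        rw [Int.natAbs_eq_iff_sq_eq.2 e5, Int.natAbs_mul, Int.natAbs_mul]; rfl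
      have e7 : 0 < (p * m).natAbs := Int.natAbs_pos.2
        (mul_ne_zero (by rintro rfl; simp at p2) (by rintro rfl; simp at m2))
      have e8 : 2 * q.natAbs ≤ v.natAbs := e6 ▸ Nat.le_mul_of_pos_right _ e7
      by_contra s0
      obtain rfl := ih p q m (by omega) hpq p2 hn
      simp at e6
      omega
    rcases hτ with rfl | rfl <;> rcases hcase with ⟨g1, g⟩ | ⟨g1, g⟩ | ⟨g1, g⟩ | ⟨g1, g⟩
    · exact fin2 p q hu hpq (by linear_combination -hsum + g1 + g + 20 * hu)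
    · exact fin2 q p (by rw [hu]; ring) hpq.symm (by linear_combination -hsum + g1 + g + 20 * hu)
    · exact absurd (by linear_combination -hsum + g1 + g + 20 * hu) (no45 m p q 20 m2 (Or.inl rfl))
    · exact absurd (by linear_combination -hsum + g1 + g + 20 * hu) (no45 m q p 20 m2 (Or.inl rfl))
    · exact absurd (by linarith) (neg4 m p (5 * n ^ 2 - 5 * q ^ 4) m2)
    · exact absurd (by linarith) (neg4 m q (5 * n ^ 2 - 5 * p ^ 4) m2)
    · exact absurd (by linarith) (neg4 m q (5 * n ^ 2 - p ^ 4 - q ^ 4) m2)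
    · exact absurd (by linarith) (neg4 m p (5 * n ^ 2 - p ^ 4 - q ^ 4) m2)
  have m4 : 0 ≤ m ^ 4 := by positivity
  have n4 : 0 ≤ n ^ 4 := by positivity
  have u0 : 0 < u ^ 2 := by have := sq_nonneg u; omega
  have v0 := sq_nonneg v
  rcases hσ with rfl | rfl <;> rcases hcase with ⟨g1, g⟩ | ⟨g1, g⟩ | ⟨g1, g⟩ | ⟨g1, g⟩
  · exact fin m n ht hmn (by linear_combination -hsum + g1 + g - 10 * ht)
  · exact fin n m (by rw [ht]; ring) hmn.symm (by linear_combination -hsum + g1 + g - 10 * ht)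
  · exact absurd (by linear_combination -hsum + g1 + g - 10 * ht)
      (no45 u m n (-10) h2 (Or.inr rfl))
  · exact absurd (by linear_combination -hsum + g1 + g - 10 * ht)
      (no45 u n m (-10) h2 (Or.inr rfl))
  all_goals linarith

lemma plain7 (h0 : BB70) (a b y : ℤ) (hab : IsCoprime a b) (ha : Odd a)
    (hy : y ^ 2 = re5 2 a b) : b = 0 := by
  have ha2 : ¬ 2 ∣ a := by obtain ⟨k, rfl⟩ := ha; omega
  have a2 : IsCoprime a 2 := (Int.prime_two.coprime_iff_not_dvd.2 ha2).symm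
  simp only [re5] at hy
  by_cases h5 : 5 ∣ a
  · exfalso
    obtain ⟨a, rfl⟩ := h5
    obtain ⟨y, rfl⟩ : 5 ∣ y := prime5.dvd_of_dvd_pow (n := 2)
      ⟨625 * a ^ 5 + 500 * a ^ 3 * b ^ 2 + 20 * a * b ^ 4, by rw [hy]; ring⟩
    have hc : IsCoprime (125 * a ^ 4 + 100 * a ^ 2 * b ^ 2 + 4 * b ^ 4) a := by
      rw [show 125 * a ^ 4 + 100 * a ^ 2 * b ^ 2 + 4 * b ^ 4 =
        2 ^ 2 * b ^ 4 + a * (125 * a ^ 3 + 100 * a * b ^ 2) by ring]
      exact (a2.pow_right.mul_right hab.pow_right).of_mul_left_right.symm.add_mul_left_left _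
    obtain ⟨w, hw⟩ := Int.sq_of_isCoprime (c := y) hc (by linarith)
    have a0 : ¬ 2 ∣ a := fun h => ha2 (h.mul_left _)
    have a1 : 0 < a ^ 4 := by
      have := s4 a a0
      have : 0 ≤ a ^ 4 := by positivity
      omega
    have hw := hw.resolve_right fun h => by
      have : 0 ≤ a ^ 2 * b ^ 2 := by positivity
      have : 0 ≤ b ^ 4 := by positivity
      nlinarith [sq_nonneg w]
    have g := congrArg (Int.cast : ℤ → ZMod 8) hw
    push_cast at g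
    have g2 : (4 : ZMod 8) * a ≠ 0 := fun g => a0 (by
      have := (dvd_iff 8 (4 * a)).1 (by push_cast; exact g)
      omega)
    revert g g2
    generalize (a : ZMod 8) = a; generalize (b : ZMod 8) = b; generalize (w : ZMod 8) = w
    revert a b w; decide +kernel
  · have a5 : IsCoprime a 5 := (prime5.coprime_iff_not_dvd.2 h5).symm
    have hc : IsCoprime (a ^ 4 + 20 * a ^ 2 * b ^ 2 + 20 * b ^ 4) a := by
      rw [show a ^ 4 + 20 * a ^ 2 * b ^ 2 + 20 * b ^ 4 =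
        2 ^ 2 * 5 * b ^ 4 + a * (a ^ 3 + 20 * a * b ^ 2) by ring]
      exact ((a2.pow_right.mul_right a5).mul_right hab.pow_right).symm.add_mul_left_left _
    obtain ⟨w, hw⟩ := Int.sq_of_isCoprime (c := y) hc (by linarith)
    have a1 : 0 < a ^ 4 := by
      have := s4 a ha2
      have : 0 ≤ a ^ 4 := by positivity
      omega
    have hw := hw.resolve_right fun h => by
      have : 0 ≤ a ^ 2 * b ^ 2 := by positivity
      have : 0 ≤ b ^ 4 := by positivity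
      nlinarith [sq_nonneg w]
    exact h0 a b w hab ha hw.symm

lemma prim (a b y z α β γ δ : ℤ) (hyz : IsCoprime y z) (h2 : ¬ 2 ∣ y)
    (hy : y ^ 2 = α * re5 2 a b + 2 * β * im5 2 a b) (hz : z = γ * re5 2 a b + δ * im5 2 a b) :
    IsCoprime a b ∧ Odd a := by
  constructor
  · obtain ⟨s, t, hst⟩ := hyz.pow_left (m := 2)
    refine ⟨(s * α + t * γ) * (a ^ 4 + 20 * a ^ 2 * b ^ 2 + 20 * b ^ 4),
      (s * 2 * β + t * δ) * (5 * a ^ 4 + 20 * a ^ 2 * b ^ 2 + 4 * b ^ 4), ?_⟩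
    rw [hy, hz] at hst
    simp only [re5, im5] at hst
    linear_combination hst
  · rw [← Int.not_even_iff_odd, even_iff_two_dvd]
    rintro ⟨a, rfl⟩
    refine h2 (Int.prime_two.dvd_of_dvd_pow (n := 2)
      ⟨α * (16 * a ^ 5 + 80 * a ^ 3 * b ^ 2 + 20 * a * b ^ 4) + β * im5 2 (2 * a) b, ?_⟩)
    rw [hy, re5]; ring

end Red7

theorem E7_of (h0 : BB70) (h1 : BB71) (h2 : BB72) (x y z : ℤ)
    (hg : Int.gcd (Int.gcd x y) z = 1) (h : x ^ 5 + y ^ 4 - 2 * z ^ 2 = 0) :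
    (x, y, z) ∈ ({(-1, 1, 0), (-1, -1, 0), (1, 1, 1), (1, 1, -1), (1, -1, 1), (1, -1, -1)} :
      Set (ℤ × ℤ × ℤ)) := by
  have hp : ∀ p : ℤ, Prime p → p ∣ x → p ∣ y → ¬ p ∣ z := fun p hp h1 h2 h3 =>
    hp.not_isUnit (isUnit_of_dvd_one (by
      have := Int.dvd_coe_gcd (Int.dvd_coe_gcd h1 h2) h3
      rwa [hg] at this))
  have hy2 : ¬ 2 ∣ y := by
    rintro ⟨y, rfl⟩
    obtain ⟨x, rfl⟩ : 2 ∣ x := Int.prime_two.dvd_of_dvd_pow (n := 5) ⟨z ^ 2 - 8 * y ^ 4, by linarith⟩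
    exact hp 2 Int.prime_two ⟨x, rfl⟩ ⟨y, rfl⟩ (Int.prime_two.dvd_of_dvd_pow (n := 2)
      ⟨8 * x ^ 5 + 4 * y ^ 4, by linarith⟩)
  have hx2 : ¬ 2 ∣ x := by
    rintro ⟨x, rfl⟩
    exact hy2 (Int.prime_two.dvd_of_dvd_pow (n := 4) ⟨z ^ 2 - 16 * x ^ 5, by linarith⟩)
  have hxy : IsCoprime x y := by
    refine isCoprime_of_prime_dvd (fun h0 => hy2 (by simp [h0.2])) fun p hp' p0 p1 => ?_
    have h1 : p ∣ 2 * z ^ 2 := by
      rw [show 2 * z ^ 2 = x * x ^ 4 + y * y ^ 3 by linarith]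
      exact (p0.mul_right _).add (p1.mul_right _)
    rcases hp'.dvd_or_dvd h1 with h2 | h2
    · exact hy2 (((Prime.dvd_prime_iff_associated hp' Int.prime_two).1 h2).symm.dvd.trans p1)
    · exact hp p hp' p0 p1 (hp'.dvd_of_dvd_pow h2)
  have hyz : IsCoprime y z := by
    refine isCoprime_of_prime_dvd (fun h0 => hy2 (by simp [h0.1])) fun p hp' p0 p1 => ?_
    refine hp p hp' (hp'.dvd_of_dvd_pow (n := 5) ?_) p0 p1
    rw [show x ^ 5 = z * (2 * z) - y * y ^ 3 by linarith]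
    exact (p1.mul_right _).sub (p0.mul_right _)
  have five : ∀ t : ℤ, x ^ 5 = t ^ 5 → x = t := fun t => (Odd.pow_inj (n := 5) (by decide)).1
  obtain ⟨a, b, ⟨e1, e2⟩ | ⟨σ, hσ, e1, e2⟩ | ⟨σ, e1, e2⟩⟩ := Red7.fifth2 (-x) y z
    ((Int.prime_two.coprime_iff_not_dvd.2 hx2).symm.mul_right hxy).neg_left (by linarith)
  · obtain ⟨hab, ha⟩ := Red7.prim a b y z 1 0 0 1 hyz hy2 (by linarith) (by linarith)
    obtain rfl := Red7.plain7 h0 a b y hab ha e1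
    simp only [re5, im5] at e1 e2
    obtain rfl : z = 0 := by rw [e2]; ring
    rcases Int.isUnit_iff.1 (isCoprime_zero_right.1 hab) with rfl | rfl
    · have h3 : y ^ 2 = 1 := by linarith
      obtain rfl := five (-1) (by linear_combination h - (y ^ 2 + 1) * h3)
      rcases sq_eq_one_iff.1 h3 with rfl | rfl <;> simp
    · nlinarith [sq_nonneg y]
  · obtain ⟨hab, ha⟩ := Red7.prim a b y z 1 1 σ σ hyz hy2 (by linarith) (by linarith)
    obtain rfl := h1 a b y hab ha e1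
    simp only [re5, im5] at e1 e2
    rcases Int.isUnit_iff.1 (isCoprime_zero_right.1 hab) with rfl | rfl
    · have h3 : y ^ 2 = 1 := by linarith
      obtain rfl : z = σ := by linarith
      have h4 : z ^ 2 = 1 := by rcases hσ with rfl | rfl <;> norm_num
      obtain rfl := five 1 (by linear_combination h - (y ^ 2 + 1) * h3 + 2 * h4)
      rcases sq_eq_one_iff.1 h3 with rfl | rfl <;> rcases hσ with rfl | rfl <;> simp
    · nlinarith [sq_nonneg y]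
  · obtain ⟨hab, ha⟩ := Red7.prim a b y z 3 2 (2 * σ) (3 * σ) hyz hy2 (by linarith) (by linarith)
    exact (h2 a b y hab ha e1).elim

theorem bb70 : BB70 := fun u v w huv hu h =>
  Red7.quartic20 _ u v w le_rfl huv (by obtain ⟨k, rfl⟩ := hu; omega) h

end Pool.Agent.Lib.MP_ab8df0_nt.C
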