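import Pool.Agent.Lib.MP_ab8df0_nt.C.BB

/-! Reduction of the equations of signature (5,4,2). -/

namespace Pool.Agent.Lib.MP_ab8df0_nt.C

open QuadraticAlgebra

namespace Red8

abbrev R3 := QuadraticAlgebra ℤ 3 0

lemma R3_norm_zero : ∀ (n : ℕ) (z : R3), z.re.natAbs + z.im.natAbs ≤ n → z.norm = 0 → z = 0 := by
  intro n
  induction n with
  | zero => intro z h _; ext <;> simp <;> omega
  | succ n ih =>
    rintro ⟨x, y⟩ h h0
    simp only [norm_def] at h h0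
    obtain ⟨x, rfl⟩ : 3 ∣ x := Int.prime_three.dvd_of_dvd_pow (n := 2) ⟨y * y, by linarith⟩
    obtain ⟨y, rfl⟩ : 3 ∣ y := Int.prime_three.dvd_of_dvd_pow (n := 2) ⟨x * x, by linarith⟩
    by_cases hz : x = 0 ∧ y = 0
    · obtain ⟨rfl, rfl⟩ := hz; ext <;> simp
    · have := ih ⟨x, y⟩ (by simp only; omega) (by simp only [norm_def]; linarith)
      exact absurd ⟨congrArg re this, congrArg im this⟩ hz

instance : IsDomain R3 := quad_domain 3 0 fun z => R3_norm_zero _ z le_rfl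

instance : IsPrincipalIdealRing R3 := quad_pid 3 0 (fun z => R3_norm_zero _ z le_rfl) (by
  intro x y hx hy
  obtain ⟨h1, h2⟩ := abs_le.1 hx
  obtain ⟨h3, h4⟩ := abs_le.1 hy
  push_cast
  rw [abs_lt]
  constructor <;> nlinarith [mul_nonneg (sub_nonneg.2 h1) (sub_nonneg.2 h2),
    mul_nonneg (sub_nonneg.2 h3) (sub_nonneg.2 h4), sq_nonneg x, sq_nonneg y])

/-- the classes of units modulo fifth powers -/
def Cl (e f z : R3) : Prop :=
  ∃ v : R3, z = v ^ 5 ∨ z = e * v ^ 5 ∨ z = e ^ 2 * v ^ 5 ∨ z = f * v ^ 5 ∨ z = f ^ 2 * v ^ 5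

lemma Cl.symm {e f z : R3} : Cl e f z → Cl f e z := by
  rintro ⟨v, h⟩
  exact ⟨v, by tauto⟩

lemma Cl.up {e f z : R3} (h : e * f = 1) : Cl e f z → Cl e f (e * z) := by
  rintro ⟨v, rfl | rfl | rfl | rfl | rfl⟩
  · exact ⟨v, Or.inr (Or.inl rfl)⟩
  · exact ⟨v, Or.inr (Or.inr (Or.inl (by ring)))⟩
  · exact ⟨e * v, Or.inr (Or.inr (Or.inr (Or.inr (by
      linear_combination (-e ^ 3 * v ^ 5 * (e * f + 1)) * h))))⟩
  · exact ⟨v, Or.inl (by linear_combination v ^ 5 * h)⟩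
  · exact ⟨v, Or.inr (Or.inr (Or.inr (Or.inl (by linear_combination f * v ^ 5 * h))))⟩

lemma R3_units : ∀ (n : ℕ) (x y : ℤ), y.natAbs ≤ n → x ^ 2 - 3 * y ^ 2 = 1 →
    Cl ⟨2, 1⟩ ⟨2, -1⟩ ⟨x, y⟩ := by
  intro n
  have z : ∀ x : ℤ, x ^ 2 - 3 * 0 ^ 2 = 1 → Cl ⟨2, 1⟩ ⟨2, -1⟩ ⟨x, 0⟩ := fun x h => by
    rcases sq_eq_one_iff.1 (show x ^ 2 = 1 by linarith) with rfl | rfl
    · exact ⟨1, Or.inl (by decide)⟩
    · exact ⟨-1, Or.inl (by decide)⟩
  induction n with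
  | zero =>
    intro x y h h0
    obtain rfl : y = 0 := by omega
    exact z x h0
  | succ n ih =>
    intro x y h h0
    rcases eq_or_ne y 0 with rfl | hy
    · exact z x h0
    have h1 : y.natAbs < x.natAbs := Int.natAbs_lt_iff_sq_lt.2 (by nlinarith [sq_nonneg y])
    have h2 : x.natAbs < (3 * y).natAbs :=
      Int.natAbs_lt_iff_sq_lt.2 (by nlinarith [sq_pos_of_ne_zero hy])
    by_cases hs : (0 < x ∧ 0 < y) ∨ (x < 0 ∧ y < 0)
    · have := (ih (2 * x - 3 * y) (2 * y - x) (by omega) (by linear_combination h0)).up (by decide)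
      rwa [show (⟨2, 1⟩ : R3) * ⟨2 * x - 3 * y, 2 * y - x⟩ = ⟨x, y⟩ by ext <;> simp <;> ring]
        at this
    · have := ((ih (2 * x + 3 * y) (2 * y + x) (by omega)
        (by linear_combination h0)).symm.up (by decide)).symm
      rwa [show (⟨2, -1⟩ : R3) * ⟨2 * x + 3 * y, 2 * y + x⟩ = ⟨x, y⟩ by ext <;> simp <;> ring]
        at this

lemma pow5 (u v : ℤ) : (⟨u, v⟩ : R3) ^ 5 = ⟨re5 3 u v, im5 3 u v⟩ := by
  ext <;> simp [pow_succ, re5, im5] <;> ring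

lemma fifth (X y z : ℤ) (hc : IsCoprime X (2 * y)) (h : X ^ 5 = y ^ 4 - 3 * z ^ 2) :
    ∃ u v : ℤ, X = u ^ 2 - 3 * v ^ 2 ∧ ((y ^ 2 = re5 3 u v ∧ z = im5 3 u v) ∨
      y ^ 2 = 2 * re5 3 u v + 3 * im5 3 u v ∨ y ^ 2 = 7 * re5 3 u v + 12 * im5 3 u v) := by
  obtain ⟨u, v, huv⟩ : IsCoprime (X ^ 5) (2 * y ^ 2) :=
    (hc.of_mul_right_left.mul_right hc.of_mul_right_right.pow_right).pow_left
  have hcop : IsCoprime (⟨y ^ 2, z⟩ : R3) ⟨y ^ 2, -z⟩ := by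
    refine ⟨⟨u, 0⟩ * ⟨y ^ 2, -z⟩ + ⟨v, 0⟩, ⟨v, 0⟩, ?_⟩
    ext <;> simp
    · linear_combination huv - u * h
    · ring
  obtain ⟨d, e, he⟩ := exists_associated_pow_of_mul_eq_pow' (c := ⟨X, 0⟩) (k := 5) hcop
    (by ext <;> simp [pow_succ] <;> linarith)
  have hn := Int.isUnit_iff.1 (isUnit_iff_norm_isUnit.1 e.isUnit)
  generalize (e : R3) = g at he hn
  obtain ⟨a, b⟩ := g
  simp only [norm_def] at hn
  have h1 : a ^ 2 - 3 * b ^ 2 = 1 := by
    rcases hn with hn | hn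
    · linarith
    · exfalso
      have g := congrArg (Int.cast : ℤ → ZMod 3) hn
      push_cast at g
      revert g
      generalize (a : ZMod 3) = a; generalize (b : ZMod 3) = b
      revert a b; decide
  have key : ∀ (p q : ℤ) (w : R3), p ^ 2 - 3 * q ^ 2 = 1 → (⟨y ^ 2, z⟩ : R3) = ⟨p, q⟩ * w ^ 5 →
      X = w.re ^ 2 - 3 * w.im ^ 2 ∧ y ^ 2 = p * re5 3 w.re w.im + 3 * q * im5 3 w.re w.im ∧
        z = p * im5 3 w.re w.im + q * re5 3 w.re w.im := by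
    rintro p q ⟨s, t⟩ hp hw
    rw [pow5] at hw
    have e1 : y ^ 2 = p * re5 3 s t + 3 * q * im5 3 s t := by simpa using congrArg re hw
    have e2 : z = p * im5 3 s t + q * re5 3 s t := by simpa using congrArg im hw
    refine ⟨(Odd.pow_inj (n := 5) (by decide)).1 ?_, e1, e2⟩
    rw [h, show y ^ 4 = (y ^ 2) ^ 2 by ring, e1, e2]
    simp only [re5, im5]
    linear_combination (s ^ 2 - 3 * t ^ 2) ^ 5 * hp
  obtain ⟨w, hw | hw | hw | hw | hw⟩ := R3_units _ a b le_rfl h1 <;> rw [hw] at he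
  · obtain ⟨k1, k2, k3⟩ := key 1 0 (d * w) (by norm_num)
      (by rw [← he, show (⟨1, 0⟩ : R3) = 1 from rfl]; ring)
    exact ⟨_, _, k1, Or.inl ⟨by linarith, by linarith⟩⟩
  · obtain ⟨k1, k2, -⟩ := key 2 1 (d * w) (by norm_num) (by rw [← he]; ring)
    exact ⟨_, _, k1, Or.inr (Or.inl (by linarith))⟩
  · obtain ⟨k1, k2, -⟩ := key 7 4 (d * w) (by norm_num)
      (by rw [← he, show (⟨7, 4⟩ : R3) = ⟨2, 1⟩ ^ 2 by decide]; ring)
    exact ⟨_, _, k1, Or.inr (Or.inr (by linarith))⟩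
  · obtain ⟨k1, k2, -⟩ := key 2 (-1) (d * w) (by norm_num) (by rw [← he]; ring)
    exact ⟨(d * w).re, -(d * w).im, by rw [k1]; ring, Or.inr (Or.inl (by
      rw [k2]; simp only [re5, im5]; ring))⟩
  · obtain ⟨k1, k2, -⟩ := key 7 (-4) (d * w) (by norm_num)
      (by rw [← he, show (⟨7, -4⟩ : R3) = ⟨2, -1⟩ ^ 2 by decide]; ring)
    exact ⟨(d * w).re, -(d * w).im, by rw [k1]; ring, Or.inr (Or.inr (by
      rw [k2]; simp only [re5, im5]; ring))⟩

lemma prime5 : Prime (5 : ℤ) := Int.prime_iff_natAbs_prime.2 (by norm_num)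

lemma sq8 (a : ℤ) (h : ¬ 2 ∣ a) : a ^ 2 % 8 = 1 := by
  have : a % 8 = 1 ∨ a % 8 = 3 ∨ a % 8 = 5 ∨ a % 8 = 7 := by omega
  rcases this with h | h | h | h <;> simp [pow_two, Int.mul_emod, h]

lemma sqU (X Z Y : O) (hc : IsCoprime X Z) (h : X * Z = Y ^ 2) :
    ∃ e ∈ [1, -1, phi, -phi], ∃ A, X = e * A ^ 2 := by
  obtain ⟨A, u, hu⟩ := exists_associated_pow_of_mul_eq_pow' hc h
  have hn : (u : O).norm ^ 2 = 1 := by
    rcases Int.isUnit_iff.1 (isUnit_iff_norm_isUnit.1 u.isUnit) with h | h <;> rw [h] <;> norm_num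
  obtain ⟨v, hv | hv | hv | hv⟩ := O_units _ u le_rfl hn
  · exact ⟨1, by simp, v * A, by rw [← hu, hv]; ring⟩
  · exact ⟨-1, by simp, v * A, by rw [← hu, hv]; ring⟩
  · exact ⟨phi, by simp, v * A, by rw [← hu, hv]; ring⟩
  · exact ⟨-phi, by simp, v * A, by rw [← hu, hv]; ring⟩

lemma cls8 (M N j : O) (hc : IsCoprime M N) (h : M * N = s5 * phi ^ 3 * j ^ 2) :
    ∃ e ∈ [1, -1, phi, -phi], ∃ q ∈ [1, s5], ∃ A, M = e * q * A ^ 2 := by
  have hp : ∀ X : O, IsCoprime X phi := fun X => ⟨0, phi - 1, by rw [zero_mul, zero_add]; decide⟩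
  by_cases h5 : s5 ∣ M
  · obtain ⟨M, rfl⟩ := h5
    have h1 : M * N = phi ^ 3 * j ^ 2 :=
      mul_left_cancel₀ (show s5 ≠ 0 by decide) (by linear_combination h)
    obtain ⟨e, he, A, hA⟩ := sqU M (N * phi) (phi ^ 2 * j) (hc.of_mul_left_right.mul_right (hp M))
      (by linear_combination phi * h1)
    exact ⟨e, he, s5, by simp, A, by rw [hA]; ring⟩
  · obtain ⟨e, he, A, hA⟩ := sqU M (N * s5 * phi) (s5 * phi ^ 2 * j)
      ((hc.mul_right (cop5 M h5)).mul_right (hp M)) (by linear_combination s5 * phi * h)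
    exact ⟨e, he, 1, by simp, A, by rw [hA]; ring⟩

lemma q_one (n : ℕ) (a : ℤ) (h : (n : ℤ) ∣ a ^ 2 - 1) : qred 1 1 n (a : O) ^ 2 = 1 := by
  obtain ⟨w, hw⟩ := h
  have := (qred_eq_zero 1 1 n ((a : O) ^ 2 - 1)).2 ⟨w, by exact_mod_cast hw⟩
  rwa [map_sub, map_one, map_pow, sub_eq_zero] at this

lemma q_odd (a : ℤ) (h : ¬ 2 ∣ a) : qred 1 1 8 (a : O) ^ 2 = 1 :=
  q_one 8 a (by have := sq8 a h; push_cast; omega)

lemma half (s j : ℤ) (M : O) (hs : IsCoprime s (30 * j)) (h3 : ¬ 3 ∣ M) (hj : j ≠ 0)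
    (h : M * (M - (s : O) ^ 2) = c8 * (j : O) ^ 2) :
    (2 ∣ j ∧ ∃ m, M = m ^ 2) ∨ (¬ 2 ∣ j ∧ ∃ m, M = s5 * m ^ 2) := by
  have s2 : ¬ 2 ∣ s := fun h2 => Int.prime_two.not_isUnit (hs.isUnit_of_dvd' h2 ⟨15 * j, by ring⟩)
  have s3 : ¬ 3 ∣ s := fun h2 => Int.prime_three.not_isUnit (hs.isUnit_of_dvd' h2 ⟨10 * j, by ring⟩)
  have hc : IsCoprime M (M - (s : O) ^ 2) := by
    have h1 := hs.map (Int.castRingHom O)
    simp only [eq_intCast, Int.cast_mul, Int.cast_ofNat] at h1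
    have h2 : IsCoprime ((s : O) ^ 2) M := (h1.pow (m := 2) (n := 2)).of_isCoprime_of_dvd_right
      ⟨(M - (s : O) ^ 2) * ⟨420, -240⟩, by
        have : (900 : O) = c8 * ⟨420, -240⟩ := by decide
        linear_combination (j : O) ^ 2 * this - ⟨420, -240⟩ * h⟩
    have := h2.symm.neg_right.add_mul_left_right 1
    rwa [mul_one, neg_add_eq_sub] at this
  have e3 : c8 = 3 * (s5 * phi ^ 3) := by decide
  obtain ⟨N, hN⟩ : 3 ∣ M - (s : O) ^ 2 :=
    (three_prime.dvd_or_dvd ⟨s5 * phi ^ 3 * (j : O) ^ 2, by rw [h, e3]; ring⟩).resolve_left h3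
  obtain ⟨e, he, q, hq, m, hm⟩ := cls8 M N j (hN ▸ hc).of_mul_right_right
    (mul_left_cancel₀ (show (3 : O) ≠ 0 by decide) (by rw [hN, e3] at h; linear_combination h))
  have hd : e * q ∈ [1, -1, s5, -s5] := by
    have g1 := (qred_eq_zero 1 1 3 (M - (s : O) ^ 2)).2 ⟨N, hN⟩
    rw [map_sub, map_pow, q_one 3 s (by
      have : s % 3 = 1 ∨ s % 3 = 2 := by omega
      have : s ^ 2 % 3 = 1 := by rcases this with h | h <;> simp [pow_two, Int.mul_emod, h]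
      push_cast; omega), hm, map_mul, map_pow, pow_two, sub_eq_zero] at g1
    have key : ∀ e ∈ [1, -1, phi, -phi], ∀ q ∈ [1, s5], ∀ x y : ZMod 3,
        qred 1 1 3 (e * q) * (⟨x, y⟩ * ⟨x, y⟩) = 1 → e * q ∈ [1, -1, s5, -s5] := by
      decide +kernel
    exact key e he q hq _ _ g1
  generalize e * q = d at hm hd
  have g8 := congrArg (qred 1 1 8) h
  by_cases j2 : 2 ∣ j
  · refine Or.inl ⟨j2, ?_⟩
    by_cases M2 : 2 ∣ M
    · exfalso
      obtain ⟨k, j', hj', hk⟩ := WfDvdMonoid.max_power_factor' hj Int.prime_two.not_isUnit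
      obtain ⟨k, rfl⟩ : ∃ i, k = i + 1 := by
        rcases k with _ | k
        · exact absurd (by simpa [hk] using j2) hj'
        · exact ⟨k, rfl⟩
      have c1 : IsCoprime (2 : O) (M - (s : O) ^ 2) := hc.of_isCoprime_of_dvd_left M2
      have c2 : IsCoprime (2 : O) d := by
        have : ∀ d ∈ [1, -1, s5, -s5], d * d = 1 ∨ d * d = 5 := by decide
        rcases this d hd with g | g
        · exact ⟨0, d, by linear_combination g⟩
        · exact ⟨-2, d, by linear_combination g⟩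
      have hE : (j : O) = 2 ^ (k + 1) * j' := by rw [hk]; push_cast; rfl
      obtain ⟨m, rfl⟩ : (2 : O) ^ (k + 1) ∣ m := by
        refine (IsIntegrallyClosed.pow_dvd_pow_iff two_ne_zero).1 ?_
        refine ((c2.mul_right c1).pow_left.pow_left).dvd_of_dvd_mul_left ⟨c8 * (j' : O) ^ 2, ?_⟩
        rw [hE] at h
        linear_combination h - (M - (s : O) ^ 2) * hm
      have h1 : d * m ^ 2 * (4 * ((2 ^ k * 2 ^ k : ℤ) : O) * (d * m ^ 2) - (s : O) ^ 2) =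
          c8 * (j' : O) ^ 2 := by
        refine mul_left_cancel₀ (pow_ne_zero 2 (pow_ne_zero (k + 1) two_prime.ne_zero)) ?_
        rw [hE, hm] at h
        push_cast
        linear_combination h
      have g := congrArg (qred 1 1 8) h1
      generalize (2 ^ k * 2 ^ k : ℤ) = t at g
      simp only [map_mul, map_sub, map_pow, q_odd s s2, q_odd j' hj', mul_one, map_ofNat] at g
      have key : ∀ d ∈ [1, -1, s5, -s5], ∀ t x y : ZMod 8,
          qred 1 1 8 d * (⟨x, y⟩ : R8) ^ 2 * (4 * ⟨t, 0⟩ * (qred 1 1 8 d * ⟨x, y⟩ ^ 2) - 1) ≠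
            qred 1 1 8 c8 := by decide +kernel
      exact key d hd t _ _ g
    · obtain ⟨j, rfl⟩ := j2
      obtain ⟨t, ht⟩ : (2 : O) ^ 2 ∣ M - (s : O) ^ 2 :=
        (cop2 M M2).symm.pow_left.dvd_of_dvd_mul_left ⟨c8 * (j : O) ^ 2, by
          rw [h]; push_cast; ring⟩
      have g := (qred_eq_zero 1 1 8 (2 * (M - (s : O) ^ 2))).2 ⟨t, by rw [ht]; push_cast; ring⟩
      simp only [hm, map_mul, map_sub, map_pow, q_odd s s2, map_ofNat] at g
      have key : ∀ d ∈ [1, -1, s5, -s5], ∀ x y : ZMod 8,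
          2 * (qred 1 1 8 d * (⟨x, y⟩ : R8) ^ 2 - 1) = 0 → d = 1 := by decide +kernel
      exact ⟨m, by rw [hm, key d hd _ _ g, one_mul]⟩
  · simp only [hm, map_mul, map_sub, map_pow, q_odd s s2, q_odd j j2, mul_one] at g8
    have key : ∀ d ∈ [1, -1, s5, -s5], ∀ x y : ZMod 8,
        qred 1 1 8 d * (⟨x, y⟩ : R8) ^ 2 * (qred 1 1 8 d * ⟨x, y⟩ ^ 2 - 1) = qred 1 1 8 c8 →
          d = s5 := by decide +kernel
    exact Or.inr ⟨j2, m, by rw [hm, key d hd _ _ g8]⟩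

lemma factor (s v w : ℤ) (hs : s ≠ 0) (hc : IsCoprime (w ^ 2) (60 * v ^ 2))
    (h : w ^ 2 = s ^ 8 + 30 * s ^ 4 * v ^ 2 + 45 * v ^ 4) :
    ∃ p : O, p ^ 2 = (s : O) ^ 4 + c8 * (v : O) ^ 2 := by
  have h1 : c8 + star c8 = 30 := by decide
  have h2 : c8 * star c8 = 45 := by decide
  have h3 : (c8 - star c8) * s5 = 60 := by decide
  have h4 := congrArg (Int.cast : ℤ → O) h
  push_cast at h4
  have h5 : ((s : O) ^ 4 + c8 * v ^ 2) * (s ^ 4 + star c8 * v ^ 2) = (w : O) ^ 2 := by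
    linear_combination -h4 + (s : O) ^ 4 * v ^ 2 * h1 + (v : O) ^ 4 * h2
  obtain ⟨a, b, hab⟩ := hc.map (Int.castRingHom O)
  simp only [eq_intCast, Int.cast_pow, Int.cast_mul, Int.cast_ofNat] at hab
  obtain ⟨e, he, A, hA⟩ := sqU _ _ _ ⟨a * (s ^ 4 + star c8 * v ^ 2) + b * s5, -(b * s5),
    by linear_combination hab + a * h5 + b * v ^ 2 * h3⟩ h5
  obtain ⟨σ, τ, -, x, t, x1, x2, t1, t2, hσ, hτ⟩ := exists_embs
  have s4 : (0 : ℝ) < (s : ℝ) ^ 4 := by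
    have : (s : ℝ) ≠ 0 := by exact_mod_cast hs
    positivity
  have v2 : (0 : ℝ) ≤ (v : ℝ) ^ 2 := sq_nonneg _
  have k1 := congrArg σ hA
  have k2 := congrArg τ hA
  simp only [map_add, map_mul, map_pow, map_intCast] at k1 k2
  have c1 : 0 ≤ σ c8 * (v : ℝ) ^ 2 := mul_nonneg (by rw [c8, hσ]; push_cast; linarith) v2
  have c2 : 0 ≤ τ c8 * (v : ℝ) ^ 2 := mul_nonneg (by rw [c8, hτ]; push_cast; linarith) v2
  have a1 := sq_nonneg (σ A)
  have a2 := sq_nonneg (τ A)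
  simp only [List.mem_cons, List.not_mem_nil, or_false] at he
  rcases he with rfl | rfl | rfl | rfl
  · exact ⟨A, by rw [hA, one_mul]⟩
  · rw [map_neg, map_one] at k1
    linarith
  · have := mul_nonneg (show 0 ≤ -τ phi by rw [phi, hτ]; push_cast; linarith) a2
    linarith
  · have := mul_nonneg (show 0 ≤ σ phi by rw [phi, hσ]; push_cast; linarith) a1
    rw [map_neg] at k1
    linarith

lemma octic (ha : BB8a) (hb : BB8b) (s v w : ℤ) (hc : IsCoprime s (30 * v)) (hv : 2 ∣ v)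
    (h : w ^ 2 = s ^ 8 + 30 * s ^ 4 * v ^ 2 + 45 * v ^ 4) :
    v = 0 ∨ v = 2 * s ^ 2 ∨ v = -2 * s ^ 2 := by
  rcases eq_or_ne v 0 with rfl | v0
  · exact Or.inl rfl
  obtain ⟨j, rfl⟩ := hv
  have s2 : ¬ 2 ∣ s := fun h2 => Int.prime_two.not_isUnit (hc.isUnit_of_dvd' h2 ⟨30 * j, by ring⟩)
  have hw : IsCoprime (w ^ 2) (60 * (2 * j) ^ 2) := by
    have h1 : IsCoprime (s ^ 8) (60 * j ^ 2) :=
      (hc.pow (m := 8) (n := 2)).of_isCoprime_of_dvd_right ⟨60, by ring⟩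
    have h2 : IsCoprime (w ^ 2) (60 * j ^ 2) := by
      rw [h, show s ^ 8 + 30 * s ^ 4 * (2 * j) ^ 2 + 45 * (2 * j) ^ 4 =
        s ^ 8 + 60 * j ^ 2 * (2 * s ^ 4 + 12 * j ^ 2) by ring]
      exact h1.add_mul_left_left _
    have h3 : IsCoprime (w ^ 2) 4 := h2.of_isCoprime_of_dvd_right ⟨15 * j ^ 2, by ring⟩
    rw [show 60 * (2 * j) ^ 2 = 60 * j ^ 2 * 4 by ring]
    exact h2.mul_right h3
  obtain ⟨p, hp⟩ := factor s (2 * j) w (by rintro rfl; exact s2 (dvd_zero _)) hw h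
  have key : ∀ p M : O, p ^ 2 = (s : O) ^ 4 + c8 * ((2 * j : ℤ) : O) ^ 2 →
      (s : O) ^ 2 + p = 2 * M → ¬ 3 ∣ M → 2 * j = 0 ∨ 2 * j = 2 * s ^ 2 ∨ 2 * j = -2 * s ^ 2 := by
    intro p M hp hM h3
    have h4 : M * (M - (s : O) ^ 2) = c8 * (j : O) ^ 2 := by
      refine mul_left_cancel₀ (pow_ne_zero 2 two_prime.ne_zero) ?_
      push_cast at hp
      linear_combination hp - (2 * M + p - (s : O) ^ 2) * hM
    rcases half s j M (hc.of_isCoprime_of_dvd_right ⟨2, by ring⟩) h3 (by omega) h4 with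
      ⟨j2, m, hm⟩ | ⟨j2, m, hm⟩
    · exact Or.inl (ha s _ p m hc.of_mul_right_right (Int.not_even_iff_odd.1 fun g => s2 g.two_dvd)
        (by omega) hp (by rw [hM, hm]))
    · exact Or.inr (hb s _ p m hc (by omega) hp (by rw [hM, hm]; ring))
  obtain ⟨M, hM⟩ : (2 : O) ∣ (s : O) ^ 2 + p := two_prime.dvd_of_dvd_pow (n := 2)
    ⟨(s : O) ^ 4 + s ^ 2 * p + 2 * c8 * j ^ 2, by push_cast at hp; linear_combination hp⟩
  by_cases h3 : 3 ∣ M
  · refine key (-p) ((s : O) ^ 2 - M) (by rw [neg_sq, hp]) (by linear_combination -hM) fun g => ?_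
    have g1 : (3 : O) ∣ s := three_prime.dvd_of_dvd_pow (n := 2) (by simpa using g.add h3)
    have g2 := (hc.of_isCoprime_of_dvd_right (show (3 : ℤ) ∣ _ from ⟨20 * j, by ring⟩)).map
      (Int.castRingHom O)
    simp only [eq_intCast, Int.cast_ofNat] at g2
    exact three_prime.not_isUnit (g2.isUnit_of_dvd' g1 dvd_rfl)
  · exact key p M hp hM h3

lemma quintic (ha : BB8a) (hb : BB8b) (a b y : ℤ) (hab : IsCoprime a b) (h2 : ¬ 2 ∣ a + b)
    (h3 : ¬ 3 ∣ a) (h : y ^ 2 = a * (a ^ 4 + 30 * a ^ 2 * b ^ 2 + 45 * b ^ 4)) :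
    a = 1 ∧ (b = 0 ∨ b = 2 ∨ b = -2) := by
  have a3 : IsCoprime a 3 := (Int.prime_three.coprime_iff_not_dvd.2 h3).symm
  have a0 : a ≠ 0 := by rintro rfl; exact h3 (dvd_zero _)
  have g3 : (a : ZMod 3) ≠ 0 := fun g => h3 ((ZMod.intCast_zmod_eq_zero_iff_dvd a 3).1 g)
  have h5 : ¬ 5 ∣ a := by
    rintro ⟨a, rfl⟩
    obtain ⟨y, rfl⟩ : 5 ∣ y := prime5.dvd_of_dvd_pow (n := 2) ⟨_, by rw [h, mul_assoc]⟩
    have hc : IsCoprime (125 * a ^ 4 + 150 * a ^ 2 * b ^ 2 + 9 * b ^ 4) a := by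
      rw [show 125 * a ^ 4 + 150 * a ^ 2 * b ^ 2 + 9 * b ^ 4 =
        3 ^ 2 * b ^ 4 + a * (125 * a ^ 3 + 150 * a * b ^ 2) by ring]
      exact (a3.of_mul_left_right.pow_right.mul_right
        hab.of_mul_left_right.pow_right).symm.add_mul_left_left _
    obtain ⟨w, hw | hw⟩ := Int.sq_of_isCoprime (c := y) hc (by linarith)
    · have g := congrArg (Int.cast : ℤ → ZMod 3) hw
      push_cast at g g3
      revert g g3
      generalize (a : ZMod 3) = a; generalize (b : ZMod 3) = b; generalize (w : ZMod 3) = w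
      revert a b w; decide
    · have a1 : a ≠ 0 := by rintro rfl; simp at a0
      have : 0 < 125 * a ^ 4 + 150 * a ^ 2 * b ^ 2 + 9 * b ^ 4 := by positivity
      nlinarith [sq_nonneg w]
  have a5 : IsCoprime a 5 := (prime5.coprime_iff_not_dvd.2 h5).symm
  have hc : IsCoprime a (a ^ 4 + 30 * a ^ 2 * b ^ 2 + 45 * b ^ 4) := by
    rw [show a ^ 4 + 30 * a ^ 2 * b ^ 2 + 45 * b ^ 4 =
      3 ^ 2 * 5 * b ^ 4 + a * (a ^ 3 + 30 * a * b ^ 2) by ring]
    exact ((a3.pow_right.mul_right a5).mul_right hab.pow_right).add_mul_left_right _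
  have G0 : 0 < a ^ 4 + 30 * a ^ 2 * b ^ 2 + 45 * b ^ 4 := by positivity
  obtain ⟨w, hw⟩ := Int.sq_of_isCoprime hc.symm (by rw [mul_comm]; exact h.symm)
  have hw := hw.resolve_right fun g => by nlinarith [sq_nonneg w]
  obtain ⟨r, hr⟩ := Int.sq_of_isCoprime hc h.symm
  obtain rfl : a = r ^ 2 := by
    refine hr.resolve_right fun hr => ?_
    have r0 : r ≠ 0 := by rintro rfl; exact a0 (by simp [hr])
    have := mul_pos (sq_pos_of_ne_zero r0) G0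
    nlinarith [sq_nonneg y]
  have hr2 : ¬ 2 ∣ r := by
    rintro ⟨r, rfl⟩
    have b2 : ¬ 2 ∣ b := fun ⟨c, hc⟩ => h2 ⟨2 * r ^ 2 + c, by rw [hc]; ring⟩
    have e1 : (b ^ 2) ^ 2 % 8 = 1 := sq8 _ fun g => b2 (Int.prime_two.dvd_of_dvd_pow g)
    have e2 : w ^ 2 = 8 * (32 * r ^ 8 + 60 * r ^ 4 * b ^ 2) + 45 * (b ^ 2) ^ 2 := by
      linear_combination -hw
    by_cases w2 : 2 ∣ w
    · obtain ⟨w, rfl⟩ := w2
      rw [mul_pow 2 w] at e2
      omega
    · have := sq8 w w2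
      omega
  have e1 := sq8 r hr2
  have c : ∀ t : ℤ, IsCoprime (r ^ 2) t → IsCoprime r t := fun t g =>
    (IsCoprime.pow_left_iff (by norm_num : 0 < 2)).1 g
  have hc30 : IsCoprime r (30 * b) := by
    rw [show (30 : ℤ) = 2 * 3 * 5 by norm_num]
    exact (((Int.prime_two.coprime_iff_not_dvd.2 hr2).symm.mul_right (c _ a3)).mul_right
      (c _ a5)).mul_right (c _ hab)
  have ho := octic ha hb r b w hc30 (by omega) (by linear_combination -hw)
  have hu : IsUnit (r ^ 2) := hab.isUnit_of_dvd' dvd_rfl (by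
    rcases ho with g | g | g <;> rw [g]
    · exact dvd_zero _
    · exact Dvd.intro_left _ rfl
    · exact Dvd.intro_left _ rfl)
  have h1 : r ^ 2 = 1 := (Int.isUnit_iff.1 hu).resolve_right fun g => by nlinarith [sq_nonneg r]
  rw [h1] at ho
  exact ⟨h1, by omega⟩

end Red8

open Red8 in
theorem E8_of (ha : BB8a) (hb : BB8b) (h1 : BB81) (h2 : BB82) (x y z : ℤ)
    (hg : Int.gcd (Int.gcd x y) z = 1) (h : x ^ 5 + y ^ 4 - 3 * z ^ 2 = 0) :
    (x, y, z) ∈ ({(-1, 1, 0), (-1, -1, 0), (11, 29, 538), (11, 29, -538), (11, -29, 538),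
      (11, -29, -538)} : Set (ℤ × ℤ × ℤ)) := by
  have hp : ∀ p : ℤ, Prime p → p ∣ x → p ∣ y → ¬ p ∣ z := fun p hp h1 h2 h3 =>
    hp.not_isUnit (isUnit_of_dvd_one (by
      have := Int.dvd_coe_gcd (Int.dvd_coe_gcd h1 h2) h3
      rwa [hg] at this))
  have hx3 : ¬ 3 ∣ x := by
    rintro ⟨x, rfl⟩
    obtain ⟨y, rfl⟩ : 3 ∣ y := Int.prime_three.dvd_of_dvd_pow (n := 4)
      ⟨-81 * x ^ 5 + z ^ 2, by linarith⟩
    exact hp 3 Int.prime_three ⟨x, rfl⟩ ⟨y, rfl⟩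
      (Int.prime_three.dvd_of_dvd_pow (n := 2) ⟨27 * x ^ 5 + 9 * y ^ 4, by linarith⟩)
  have hy3 : ¬ 3 ∣ y := by
    rintro ⟨y, rfl⟩
    exact hx3 (Int.prime_three.dvd_of_dvd_pow (n := 5) ⟨z ^ 2 - 27 * y ^ 4, by linarith⟩)
  have hxy : IsCoprime x y := by
    refine isCoprime_of_prime_dvd (fun h0 => hx3 (by simp [h0.1])) fun p hp' p0 p1 => ?_
    have h1 : p ∣ 3 * z ^ 2 := by
      rw [show 3 * z ^ 2 = x * x ^ 4 + y * y ^ 3 by linarith]
      exact (p0.mul_right _).add (p1.mul_right _)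
    rcases hp'.dvd_or_dvd h1 with h2 | h2
    · exact hx3 (((Prime.dvd_prime_iff_associated hp' Int.prime_three).1 h2).symm.dvd.trans p0)
    · exact hp p hp' p0 p1 (hp'.dvd_of_dvd_pow h2)
  have hx2 : ¬ 2 ∣ x := by
    rintro ⟨x, rfl⟩
    have hy : ¬ 2 ∣ y := fun h => Int.prime_two.not_isUnit (hxy.isUnit_of_dvd' ⟨x, rfl⟩ h)
    have e1 : (y ^ 2) ^ 2 % 8 = 1 := sq8 _ fun h => hy (Int.prime_two.dvd_of_dvd_pow h)
    have e2 : (y ^ 2) ^ 2 - 3 * z ^ 2 = 8 * (-4 * x ^ 5) := by linarith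
    by_cases hz : 2 ∣ z
    · obtain ⟨z, rfl⟩ := hz
      rw [mul_pow 2 z] at e2; omega
    · have := sq8 z hz; omega
  obtain ⟨a, b, h3, h4⟩ := fifth (-x) y z
    ((Int.prime_two.coprime_iff_not_dvd.2 hx2).symm.mul_right hxy).neg_left (by linarith)
  have hab : IsCoprime a b := by
    refine isCoprime_of_prime_dvd (fun h0 => hx3 ?_) fun p hp' p0 p1 => ?_
    · rw [h0.1, h0.2] at h3
      simp at h3; simp [h3]
    · refine hp'.not_isUnit (hxy.isUnit_of_dvd' ?_ (hp'.dvd_of_dvd_pow (n := 2) ?_))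
      · rw [← dvd_neg, h3]
        exact (dvd_pow p0 two_ne_zero).sub ((dvd_pow p1 two_ne_zero).mul_left _)
      · have r1 : p ∣ re5 3 a b := by
          rw [show re5 3 a b = a * (a ^ 4 + 30 * a ^ 2 * b ^ 2 + 45 * b ^ 4) by
            simp only [re5]; ring]
          exact p0.mul_right _
        have r2 : p ∣ im5 3 a b := by
          rw [show im5 3 a b = b * (5 * a ^ 4 + 30 * a ^ 2 * b ^ 2 + 9 * b ^ 4) by
            simp only [im5]; ring]
          exact p1.mul_right _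
        rcases h4 with ⟨g, -⟩ | g | g <;> rw [g]
        · exact r1
        · exact (r1.mul_left _).add (r2.mul_left _)
        · exact (r1.mul_left _).add (r2.mul_left _)
  have ho : ¬ 2 ∣ a + b := fun ⟨w, hw⟩ => hx2 ⟨a * b + 2 * b ^ 2 - 2 * w ^ 2, by
    linear_combination -h3 - (a + b + 2 * w) * hw⟩
  have ho' : Odd (a + b) := Int.not_even_iff_odd.1 fun g => ho g.two_dvd
  rcases h4 with ⟨g1, g2⟩ | g | g
  · obtain ⟨rfl, hb⟩ := quintic ha hb a b y hab ho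
      (fun ⟨w, hw⟩ => hx3 ⟨b ^ 2 - 3 * w ^ 2, by rw [hw] at h3; linarith⟩)
      (by rw [g1]; simp only [re5]; ring)
    simp only [re5, im5] at g1 g2
    rcases hb with rfl | rfl | rfl
    · obtain rfl : x = -1 := by linarith
      obtain rfl : z = 0 := by linarith
      rcases sq_eq_one_iff.1 (show y ^ 2 = 1 by linarith) with rfl | rfl <;> simp
    · obtain rfl : x = 11 := by linarith
      obtain rfl : z = 538 := by linarith
      rcases sq_eq_sq_iff_eq_or_eq_neg.1 (show y ^ 2 = 29 ^ 2 by linarith) with rfl | rfl <;> simp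
    · obtain rfl : x = 11 := by linarith
      obtain rfl : z = -538 := by linarith
      rcases sq_eq_sq_iff_eq_or_eq_neg.1 (show y ^ 2 = 29 ^ 2 by linarith) with rfl | rfl <;> simp
  · exact (h1 a b y hab ho' hy3 g).elim
  · exact (h2 a b y hab ho' hy3 g).elim

end Pool.Agent.Lib.MP_ab8df0_nt.C
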